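import Pool.Agent.R914.UN.Ide

/-!
# Tensors killed by a Lie algebra
-/

set_option linter.unusedSectionVars false

namespace Pool.Agent.R914.FG

open Matrix Pool.Agent.R914.UN

variable {B : Type} [Fintype B] [DecidableEq B]

/-- The operator `1 ⊗ ⋯ ⊗ x ⊗ ⋯ ⊗ 1` on the tensors, with `x` at the place `i`. -/
def slot (ι : Type) [Fintype ι] [DecidableEq ι] (i : ι) (x : Matrix B B ℂ) :
    Matrix (ι → B) (ι → B) ℂ :=
  Matrix.of fun I J => ∏ j, (if j = i then x else 1) (I j) (J j)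

/-- The action of `x`, as an element of the Lie algebra, on the tensors. -/
def der (ι : Type) [Fintype ι] [DecidableEq ι] (x : Matrix B B ℂ) : Matrix (ι → B) (ι → B) ℂ :=
  ∑ i, slot ι i x

/-- The tensor `v` is killed by all elements of `𝔤`. -/
def Killed (𝔤 : Submodule ℂ (Matrix B B ℂ)) {ι : Type} [Fintype ι] [DecidableEq ι]
    (v : (ι → B) → ℂ) : Prop :=
  ∀ x ∈ 𝔤, der ι x *ᵥ v = 0

end Pool.Agent.R914.FG
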