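import Pool.Agent.R914.FG.Defs

/-!
# Derivations of tensors
-/

set_option linter.unusedSectionVars false

namespace Pool.Agent.R914.FG

open Matrix Pool.Agent.R914.UN

variable {B : Type} [Fintype B] [DecidableEq B]
variable {ι : Type} [Fintype ι] [DecidableEq ι]

/-- The tensor product of matrices. -/
def tpf (ι : Type) [Fintype ι] [DecidableEq ι] (M : ι → Matrix B B ℂ) :
    Matrix (ι → B) (ι → B) ℂ := Matrix.of fun I J => ∏ j, M j (I j) (J j)

lemma tpf_mul (M N : ι → Matrix B B ℂ) : tpf ι M * tpf ι N = tpf ι (fun j => M j * N j) := by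
  ext I J
  simp only [tpf, Matrix.mul_apply, Matrix.of_apply]
  rw [Finset.prod_univ_sum, Fintype.piFinset_univ]
  exact Finset.sum_congr rfl fun K _ => Finset.prod_mul_distrib.symm

lemma slot_eq (i : ι) (x : Matrix B B ℂ) :
    slot ι i x = tpf ι (fun j => if j = i then x else 1) := rfl

lemma tp_eq (g : Matrix B B ℂ) : tp ι g = tpf ι (fun _ => g) := rfl

lemma slot_conj {g g' : Matrix B B ℂ} (h' : g' * g = 1) (i : ι) (x : Matrix B B ℂ) :
    tp ι g * slot ι i x = slot ι i (g * x * g') * tp ι g := by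
  rw [slot_eq, slot_eq, tp_eq, tpf_mul, tpf_mul]
  congr 1
  funext j
  by_cases hj : j = i
  · simp only [if_pos hj]
    rw [Matrix.mul_assoc (g * x), h', Matrix.mul_one]
  · simp only [if_neg hj]
    rw [Matrix.mul_one, Matrix.one_mul]

lemma der_conj {g g' : Matrix B B ℂ} (h' : g' * g = 1) (x : Matrix B B ℂ) :
    tp ι g * der ι x = der ι (g * x * g') * tp ι g := by
  rw [der, der, Finset.mul_sum, Finset.sum_mul]
  exact Finset.sum_congr rfl fun i _ => slot_conj h' i x

/-- The formula for the action. -/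
lemma slot_apply (i : ι) (x : Matrix B B ℂ) (v : (ι → B) → ℂ) (I : ι → B) :
    (slot ι i x *ᵥ v) I = ∑ b, x (I i) b * v (Function.update I i b) := by
  rw [mulVec, dotProduct]
  symm
  refine Finset.sum_of_injOn (fun b => Function.update I i b) ?_ ?_ ?_ ?_
  · intro b _ b' _ h
    have := congrFun h i
    simpa using this
  · intro b _
    exact Finset.mem_univ _
  · intro J _ hJ
    have h1 : ∃ j, j ≠ i ∧ I j ≠ J j := by
      by_contra hcon
      push Not at hcon
      apply hJ
      refine ⟨J i, Finset.mem_coe.2 (Finset.mem_univ _), ?_⟩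
      funext j
      by_cases hj : j = i
      · subst hj
        simp
      · simp only [Function.update_of_ne hj]
        exact hcon j hj
    obtain ⟨j, hj, hIJ⟩ := h1
    rw [slot, Matrix.of_apply, Finset.prod_eq_zero (Finset.mem_univ j), zero_mul]
    simp only [if_neg hj]
    exact Matrix.one_apply_ne hIJ
  · intro b _
    rw [slot, Matrix.of_apply, Finset.prod_eq_single i]
    · simp only [if_true, Function.update_self]
    · intro j _ hj
      simp only [if_neg hj, Function.update_of_ne hj]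
      exact Matrix.one_apply_eq _
    · intro h
      exact absurd (Finset.mem_univ _) h

lemma der_apply (x : Matrix B B ℂ) (v : (ι → B) → ℂ) (I : ι → B) :
    (der ι x *ᵥ v) I = ∑ i, ∑ b, x (I i) b * v (Function.update I i b) := by
  rw [der, Matrix.sum_mulVec, Finset.sum_apply]
  exact Finset.sum_congr rfl fun i _ => slot_apply i x v I

lemma tp_diagonal (e : B → ℂ) (v : (ι → B) → ℂ) (I : ι → B) :
    (tp ι (diagonal e) *ᵥ v) I = (∏ i, e (I i)) * v I := by
  rw [mulVec, dotProduct, Finset.sum_eq_single I]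
  · rw [tp_apply]
    simp only [diagonal_apply_eq]
  · intro J _ hJ
    obtain ⟨i, hi⟩ := Function.ne_iff.1 hJ
    rw [tp_apply, Finset.prod_eq_zero (Finset.mem_univ i), zero_mul]
    exact diagonal_apply_ne _ (Ne.symm hi)
  · intro h
    exact absurd (Finset.mem_univ _) h

lemma der_diagonal (y : B → ℂ) (v : (ι → B) → ℂ) (I : ι → B) :
    (der ι (diagonal y) *ᵥ v) I = (∑ i, y (I i)) * v I := by
  rw [der_apply, Finset.sum_mul]
  refine Finset.sum_congr rfl fun i _ => ?_
  rw [Finset.sum_eq_single (I i)]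
  · rw [diagonal_apply_eq, Function.update_eq_self]
  · intro b _ hb
    rw [diagonal_apply_ne _ (Ne.symm hb), zero_mul]
  · intro h
    exact absurd (Finset.mem_univ _) h

variable {U U' : Matrix B B ℂ}

lemma tp_cancel (h : U * U' = 1) (v : (ι → B) → ℂ) : tp ι U *ᵥ (tp ι U' *ᵥ v) = v := by
  rw [mulVec_mulVec, ← tp_mul, h, tp_one, one_mulVec]

/-- Tensors fixed by a diagonalisable matrix. -/
lemma fix_iff (h : U * U' = 1) (e : B → ℂ) (v : (ι → B) → ℂ) :
    tp ι (U * diagonal e * U') *ᵥ v = v ↔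
      ∀ I, (tp ι U' *ᵥ v) I = 0 ∨ ∏ i, e (I i) = 1 := by
  have h' : U' * U = 1 := mul_eq_one_comm.1 h
  have h1 : tp ι (U * diagonal e * U') *ᵥ v =
      tp ι U *ᵥ (tp ι (diagonal e) *ᵥ (tp ι U' *ᵥ v)) := by
    rw [tp_mul, tp_mul, ← mulVec_mulVec, ← mulVec_mulVec]
  rw [h1]
  constructor
  · intro h2 I
    have h3 := congrArg (fun u => tp ι U' *ᵥ u) h2
    rw [tp_cancel h'] at h3
    have h4 := congrFun h3 I
    rw [tp_diagonal] at h4
    have h5 : (∏ i, e (I i) - 1) * (tp ι U' *ᵥ v) I = 0 := by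
      rw [sub_mul, h4, one_mul, sub_self]
    rcases mul_eq_zero.1 h5 with h6 | h6
    · exact Or.inr (sub_eq_zero.1 h6)
    · exact Or.inl h6
  · intro h2
    have h3 : tp ι (diagonal e) *ᵥ (tp ι U' *ᵥ v) = tp ι U' *ᵥ v := by
      funext I
      rw [tp_diagonal]
      rcases h2 I with h4 | h4
      · rw [h4, mul_zero]
      · rw [h4, one_mul]
    rw [h3, tp_cancel h]

/-- Tensors killed by a diagonalisable matrix. -/
lemma kill_iff (h : U * U' = 1) (y : B → ℂ) (v : (ι → B) → ℂ) :
    der ι (U * diagonal y * U') *ᵥ v = 0 ↔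
      ∀ I, (tp ι U' *ᵥ v) I = 0 ∨ ∑ i, y (I i) = 0 := by
  have h' : U' * U = 1 := mul_eq_one_comm.1 h
  have h1 : der ι (U * diagonal y * U') *ᵥ v =
      tp ι U *ᵥ (der ι (diagonal y) *ᵥ (tp ι U' *ᵥ v)) := by
    rw [mulVec_mulVec, der_conj h', ← mulVec_mulVec, tp_cancel h]
  rw [h1]
  constructor
  · intro h2 I
    have h3 := congrArg (fun u => tp ι U' *ᵥ u) h2
    rw [tp_cancel h', mulVec_zero] at h3
    have h4 := congrFun h3 I
    rw [der_diagonal] at h4
    rcases mul_eq_zero.1 h4 with h6 | h6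
    · exact Or.inr h6
    · exact Or.inl h6
  · intro h2
    have h3 : der ι (diagonal y) *ᵥ (tp ι U' *ᵥ v) = 0 := by
      funext I
      rw [der_diagonal]
      rcases h2 I with h4 | h4
      · rw [h4, mul_zero]; rfl
      · rw [h4, zero_mul]; rfl
    rw [h3, mulVec_zero]

end Pool.Agent.R914.FG
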