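import Pool.Agent.R914.FG.Der

/-!
# The Lie algebra is determined by its invariants of degree four
-/

set_option linter.unusedSectionVars false

namespace Pool.Agent.R914.FG

open Matrix Pool.Agent.R914.UN
open scoped ComplexOrder

variable {B : Type} [Fintype B] [DecidableEq B]

lemma der_form (x J : Matrix B B ℂ) :
    der (Fin 2) x *ᵥ (fun w : Fin 2 → B => J (w 0) (w 1)) =
      fun w => (x * J + J * xᵀ) (w 0) (w 1) := by
  funext I
  rw [der_apply, Fin.sum_univ_two, Matrix.add_apply, Matrix.mul_apply, Matrix.mul_apply]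
  congr 1
  refine Finset.sum_congr rfl fun b _ => ?_
  rw [transpose_apply, mul_comm]
  simp [Function.update]

/-- The matrix `J e_d e_cᵀ`. -/
def ym (J : Matrix B B ℂ) (c d : B) : Matrix B B ℂ :=
  Matrix.of fun i j => if j = c then J i d else 0

/-- The tensor of degree four of an endomorphism of the space of matrices. -/
def tt (J : Matrix B B ℂ) (T : Matrix B B ℂ →ₗ[ℂ] Matrix B B ℂ) : (Fin 4 → B) → ℂ :=
  fun w => (T (ym J (w 2) (w 3)) * J) (w 0) (w 1)

lemma ym_right (J x : Matrix B B ℂ) (c d : B) :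
    ∑ b, x c b • ym J b d = ym J c d * x := by
  ext i j
  rw [Matrix.sum_apply, Matrix.mul_apply]
  simp only [ym, Matrix.smul_apply, Matrix.of_apply, smul_eq_mul, mul_ite, mul_zero, ite_mul,
    zero_mul]
  rw [Finset.sum_ite_eq Finset.univ j, Finset.sum_ite_eq' Finset.univ c]
  simp only [Finset.mem_univ, if_true]
  ring

lemma ym_left {J x : Matrix B B ℂ} (hx : x * J + J * xᵀ = 0) (c d : B) :
    ∑ b, x d b • ym J c b = -(x * ym J c d) := by
  ext i j
  rw [Matrix.sum_apply, Matrix.neg_apply, Matrix.mul_apply]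
  simp only [ym, Matrix.smul_apply, Matrix.of_apply, smul_eq_mul, mul_ite, mul_zero]
  by_cases hj : j = c
  · simp only [if_pos hj]
    have h1 := congrFun (congrFun hx i) d
    rw [Matrix.add_apply, Matrix.mul_apply, Matrix.mul_apply, Matrix.zero_apply] at h1
    have h2 : ∑ b, x d b * J i b = ∑ b, J i b * xᵀ b d :=
      Finset.sum_congr rfl fun b _ => by rw [transpose_apply, mul_comm]
    rw [h2]
    linear_combination h1
  · simp only [if_neg hj, Finset.sum_const_zero, neg_zero]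

lemma der_tt {J x : Matrix B B ℂ} (hx : x * J + J * xᵀ = 0)
    (T : Matrix B B ℂ →ₗ[ℂ] Matrix B B ℂ) (I : Fin 4 → B) :
    (der (Fin 4) x *ᵥ tt J T) I =
      ((x * T (ym J (I 2) (I 3)) - T (ym J (I 2) (I 3)) * x -
        T (x * ym J (I 2) (I 3) - ym J (I 2) (I 3) * x)) * J) (I 0) (I 1) := by
  rw [der_apply, Fin.sum_univ_four]
  set Y := ym J (I 2) (I 3) with hY
  have h0 : ∑ b, x (I 0) b * tt J T (Function.update I 0 b) = (x * (T Y * J)) (I 0) (I 1) := by
    rw [Matrix.mul_apply]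
    rfl
  have h1 : ∑ b, x (I 1) b * tt J T (Function.update I 1 b) = (T Y * J * xᵀ) (I 0) (I 1) := by
    rw [Matrix.mul_apply]
    refine Finset.sum_congr rfl fun b _ => ?_
    rw [transpose_apply, mul_comm]
    rfl
  have h2 : ∑ b, x (I 2) b * tt J T (Function.update I 2 b) = (T (Y * x) * J) (I 0) (I 1) := by
    rw [hY, ← ym_right, map_sum, Finset.sum_mul, Matrix.sum_apply]
    refine Finset.sum_congr rfl fun b _ => ?_
    rw [map_smul, Matrix.smul_mul, Matrix.smul_apply, smul_eq_mul]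
    rfl
  have h3 : ∑ b, x (I 3) b * tt J T (Function.update I 3 b) =
      (T (-(x * Y)) * J) (I 0) (I 1) := by
    rw [hY, ← ym_left hx, map_sum, Finset.sum_mul, Matrix.sum_apply]
    refine Finset.sum_congr rfl fun b _ => ?_
    rw [map_smul, Matrix.smul_mul, Matrix.smul_apply, smul_eq_mul]
    rfl
  have h4 : J * xᵀ = -(x * J) := by
    rw [← add_eq_zero_iff_eq_neg, add_comm]
    exact hx
  rw [h0, h1, h2, h3, ← Matrix.add_apply, ← Matrix.add_apply, ← Matrix.add_apply]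
  refine congrFun (congrFun ?_ (I 0)) (I 1)
  rw [Matrix.mul_assoc (T Y), h4, map_sub, map_neg]
  simp only [Matrix.sub_mul, Matrix.neg_mul, Matrix.mul_neg, Matrix.mul_assoc]
  abel

lemma ym_span {J : Matrix B B ℂ} (hJ : IsUnit J.det) (M : Matrix B B ℂ) :
    M = ∑ c, ∑ d, (J⁻¹ * M) d c • ym J c d := by
  ext i j
  rw [Matrix.sum_apply]
  simp only [Matrix.sum_apply, ym, Matrix.smul_apply, Matrix.of_apply, smul_eq_mul, mul_ite,
    mul_zero]
  rw [Finset.sum_eq_single j]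
  · simp only [if_true]
    have h1 : M = J * (J⁻¹ * M) := by
      rw [← Matrix.mul_assoc, mul_nonsing_inv _ hJ, Matrix.one_mul]
    conv_lhs => rw [h1]
    rw [Matrix.mul_apply]
    exact Finset.sum_congr rfl fun d _ => mul_comm _ _
  · intro c _ hc
    simp only [if_neg (Ne.symm hc), Finset.sum_const_zero]
  · intro h
    exact absurd (Finset.mem_univ _) h

/-- The tensor is killed by `x` if and only if the endomorphism commutes with `ad x`. -/
lemma kill_tt {J x : Matrix B B ℂ} (hJ : IsUnit J.det) (hx : x * J + J * xᵀ = 0)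
    (T : Matrix B B ℂ →ₗ[ℂ] Matrix B B ℂ) :
    der (Fin 4) x *ᵥ tt J T = 0 ↔ ∀ Y, T (x * Y - Y * x) = x * T Y - T Y * x := by
  constructor
  · intro h Y
    have h1 : ∀ c d, T (x * ym J c d - ym J c d * x) = x * T (ym J c d) - T (ym J c d) * x := by
      intro c d
      set Z := x * T (ym J c d) - T (ym J c d) * x - T (x * ym J c d - ym J c d * x) with hZ
      have h2 : Z * J = 0 := by
        ext a b
        have h3 := congrFun h ![a, b, c, d]
        rw [der_tt hx] at h3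
        exact h3
      have h4 : Z = 0 := by
        calc Z = Z * J * J⁻¹ := by rw [Matrix.mul_assoc, mul_nonsing_inv _ hJ, Matrix.mul_one]
          _ = 0 := by rw [h2, Matrix.zero_mul]
      exact (sub_eq_zero.1 h4).symm
    rw [ym_span hJ Y]
    simp only [Finset.mul_sum, Finset.sum_mul, Matrix.mul_smul, Matrix.smul_mul, map_sum,
      ← Finset.sum_sub_distrib, ← smul_sub, map_smul]
    refine Finset.sum_congr rfl fun c _ => Finset.sum_congr rfl fun d _ => ?_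
    rw [h1]
  · intro h
    funext I
    rw [der_tt hx, h, sub_self, Matrix.zero_mul]
    rfl

/-- The Hermitian form on the matrices. -/
noncomputable def ip (u v : Matrix B B ℂ) : ℂ := trace (uᴴ * v)

lemma ip_br (x u v : Matrix B B ℂ) : ip u (x * v - v * x) = ip (xᴴ * u - u * xᴴ) v := by
  rw [ip, ip, conjTranspose_sub, conjTranspose_mul, conjTranspose_mul, conjTranspose_conjTranspose,
    Matrix.mul_sub, Matrix.sub_mul, trace_sub, trace_sub, ← Matrix.mul_assoc, ← Matrix.mul_assoc,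
    trace_mul_comm (uᴴ * v) x, Matrix.mul_assoc x]

lemma ip_self {u : Matrix B B ℂ} (h : ip u u = 0) : u = 0 := by
  rw [ip] at h
  exact (trace_conjTranspose_mul_self_eq_zero_iff).1 h

lemma exists_proj (𝔤 : Submodule ℂ (Matrix B B ℂ)) :
    ∃ P : Matrix B B ℂ →ₗ[ℂ] Matrix B B ℂ, (∀ M, P M ∈ 𝔤) ∧ ∀ M, ∀ u ∈ 𝔤, ip u (M - P M) = 0 := by
  let φ : (B × B → ℂ) ≃ₗ[ℂ] Matrix B B ℂ :=
    { toFun := fun f => Matrix.of fun i j => f (i, j)
      invFun := fun M p => M p.1 p.2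
      map_add' := fun _ _ => rfl
      map_smul' := fun _ _ => rfl
      left_inv := fun _ => rfl
      right_inv := fun _ => rfl }
  obtain ⟨Q, hQ⟩ := exists_isProj (𝔤.comap φ.toLinearMap)
  refine ⟨φ.toLinearMap ∘ₗ Q.mulVecLin ∘ₗ φ.symm.toLinearMap, fun M => hQ.mem _, fun M u hu => ?_⟩
  have h1 := hQ.orth (φ.symm M) (φ.symm u) (by
    rw [Submodule.mem_comap]
    change φ (φ.symm u) ∈ 𝔤
    rwa [φ.apply_symm_apply])
  rw [← h1, ip, trace, dotProduct, Fintype.sum_prod_type, Finset.sum_comm]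
  refine Finset.sum_congr rfl fun i _ => ?_
  rw [Matrix.diag_apply, Matrix.mul_apply]
  rfl

variable {𝔤 : Submodule ℂ (Matrix B B ℂ)}

lemma proj_unique {P : Matrix B B ℂ →ₗ[ℂ] Matrix B B ℂ} (hP1 : ∀ M, P M ∈ 𝔤)
    (hP2 : ∀ M, ∀ u ∈ 𝔤, ip u (M - P M) = 0) {M N : Matrix B B ℂ} (hN : N ∈ 𝔤)
    (h : ∀ u ∈ 𝔤, ip u (M - N) = 0) : P M = N := by
  have h1 : P M - N ∈ 𝔤 := 𝔤.sub_mem (hP1 M) hN
  have h2 : ip (P M - N) (P M - N) = 0 := by
    have h3 := h _ h1
    have h4 := hP2 M _ h1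
    have h5 : P M - N = (M - N) - (M - P M) := by abel
    conv_lhs => rw [ip]; enter [1, 2]; rw [h5]
    rw [Matrix.mul_sub, trace_sub]
    rw [ip] at h3 h4
    rw [h3, h4, sub_zero]
  exact sub_eq_zero.1 (ip_self h2)

/-- The orthogonal projection onto the Lie algebra commutes with its action. -/
lemma proj_comm (hLie : ∀ x ∈ 𝔤, ∀ y ∈ 𝔤, x * y - y * x ∈ 𝔤) (hstar : ∀ x ∈ 𝔤, xᴴ ∈ 𝔤)
    {P : Matrix B B ℂ →ₗ[ℂ] Matrix B B ℂ} (hP1 : ∀ M, P M ∈ 𝔤)
    (hP2 : ∀ M, ∀ u ∈ 𝔤, ip u (M - P M) = 0) :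
    ∀ x ∈ 𝔤, ∀ Y, P (x * Y - Y * x) = x * P Y - P Y * x := by
  intro x hx Y
  refine proj_unique hP1 hP2 (hLie x hx _ (hP1 Y)) fun u hu => ?_
  have h1 : x * Y - Y * x - (x * P Y - P Y * x) = x * (Y - P Y) - (Y - P Y) * x := by
    rw [Matrix.mul_sub, Matrix.sub_mul]
    abel
  rw [h1, ip_br]
  exact hP2 Y _ (hLie _ (hstar x hx) u hu)

/-- **The theorem.** -/
theorem mem_of_proj (hLie : ∀ x ∈ 𝔤, ∀ y ∈ 𝔤, x * y - y * x ∈ 𝔤) (hstar : ∀ x ∈ 𝔤, xᴴ ∈ 𝔤)
    {J : Matrix B B ℂ} (hJ : IsUnit J.det) (hJ𝔤 : ∀ x ∈ 𝔤, x * J + J * xᵀ = 0)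
    (hcen : ∀ z : Matrix B B ℂ, (∀ x ∈ 𝔤, z * x = x * z) →
      (∀ a : Matrix B B ℂ, (∀ x ∈ 𝔤, a * x = x * a) → z * a = a * z) → z * J = J * zᵀ)
    {P : Matrix B B ℂ →ₗ[ℂ] Matrix B B ℂ} (hP1 : ∀ M, P M ∈ 𝔤)
    (hP2 : ∀ M, ∀ u ∈ 𝔤, ip u (M - P M) = 0)
    {y : Matrix B B ℂ} (hy2 : y * J + J * yᵀ = 0)
    (hcomm : ∀ a : Matrix B B ℂ, (∀ x ∈ 𝔤, a * x = x * a) → y * a = a * y)
    (hyP : ∀ Y, P (y * Y - Y * y) = y * P Y - P Y * y) : y ∈ 𝔤 := by
  have hPself : ∀ M ∈ 𝔤, P M = M := fun M hM => proj_unique hP1 hP2 hM fun u _ => by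
    rw [sub_self, ip, Matrix.mul_zero, trace_zero]
  have hideal : ∀ x ∈ 𝔤, y * x - x * y ∈ 𝔤 := by
    intro x hx
    have h1 := hyP x
    rw [hPself x hx] at h1
    rw [← h1]
    exact hP1 _
  set c : Matrix B B ℂ := y - P y with hc
  have hcx : ∀ x ∈ 𝔤, c * x = x * c := by
    intro x hx
    have h1 : x * c - c * x ∈ 𝔤 := by
      have h2 : x * c - c * x = -(y * x - x * y) + (P y * x - x * P y) := by
        rw [hc, Matrix.mul_sub, Matrix.sub_mul]
        abel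
      rw [h2]
      exact 𝔤.add_mem (𝔤.neg_mem (hideal x hx)) (hLie _ (hP1 y) x hx)
    have h2 : ip (x * c - c * x) (x * c - c * x) = 0 := by
      rw [ip_br]
      exact hP2 y _ (hLie _ (hstar x hx) _ h1)
    exact (sub_eq_zero.1 (ip_self h2)).symm
  have hca : ∀ a : Matrix B B ℂ, (∀ x ∈ 𝔤, a * x = x * a) → c * a = a * c := by
    intro a ha
    rw [hc, Matrix.sub_mul, Matrix.mul_sub, hcomm a ha, ha _ (hP1 y)]
  have h1 := hcen c hcx hca
  have h2 : c * J + J * cᵀ = 0 := by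
    have h3 := hJ𝔤 _ (hP1 y)
    rw [hc, transpose_sub, Matrix.sub_mul, Matrix.mul_sub]
    calc y * J - P y * J + (J * yᵀ - J * (P y)ᵀ) = (y * J + J * yᵀ) - (P y * J + J * (P y)ᵀ) := by
          abel
      _ = 0 := by rw [hy2, h3, sub_self]
  have h3 : c * J = 0 := by
    rw [← h1] at h2
    have h4 : (2 : ℂ) • (c * J) = 0 := by
      rw [two_smul]
      exact h2
    exact (smul_eq_zero.1 h4).resolve_left two_ne_zero
  have h4 : c = 0 := by
    calc c = c * J * J⁻¹ := by rw [Matrix.mul_assoc, mul_nonsing_inv _ hJ, Matrix.mul_one]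
      _ = 0 := by rw [h3, Matrix.zero_mul]
  have h5 : y = P y := sub_eq_zero.1 h4
  rw [h5]
  exact hP1 y

end Pool.Agent.R914.FG
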