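import Pool.Agent.R914.FG.Tan
import Pool.Agent.R914.FG.Lie

/-!
# Polar decomposition and elements near the identity
-/

set_option linter.unusedSectionVars false

namespace Pool.Agent.R914.FG

open Matrix Pool.Agent.R914.UN
open scoped ComplexOrder

variable {B : Type} [Fintype B] [DecidableEq B]

lemma spectral {A : Matrix B B ℂ} (hA : A.IsHermitian) : ∃ (U : Matrix B B ℂ),
    U * Uᴴ = 1 ∧ Uᴴ * U = 1 ∧ A = U * diagonal (fun i => (hA.eigenvalues i : ℂ)) * Uᴴ := by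
  refine ⟨hA.eigenvectorUnitary, ?_, ?_, ?_⟩
  · exact mem_unitaryGroup_iff.1 hA.eigenvectorUnitary.2
  · exact mem_unitaryGroup_iff'.1 hA.eigenvectorUnitary.2
  · exact hA.spectral_theorem

/-- A Lie algebra which kills the system and contains all operators which kill it. -/
structure Loc (𝔤 : Submodule ℂ (Matrix B B ℂ)) (J : Matrix B B ℂ) (S : TSys B) : Prop where
  det : IsUnit J.det
  form : ft J ∈ S.A (Fin 2)
  hodge : ∀ (ι : Type) [Fintype ι] [DecidableEq ι] (v : (ι → B) → ℂ), v ∈ S.A ι → Killed 𝔤 v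
  all : ∀ y : Matrix B B ℂ, (∀ (ι : Type) [Fintype ι] [DecidableEq ι] (v : (ι → B) → ℂ),
    v ∈ S.A ι → der ι y *ᵥ v = 0) → y ∈ 𝔤

/-- The tensors of degree two and four of the system determine the Lie algebra. -/
structure Ctx (𝔤 : Submodule ℂ (Matrix B B ℂ)) (J : Matrix B B ℂ) (S : TSys B) : Prop where
  det : IsUnit J.det
  form : ft J ∈ S.A (Fin 2)
  hodge : ∀ (ι : Type) [Fintype ι] [DecidableEq ι] (v : (ι → B) → ℂ), v ∈ S.A ι → Killed 𝔤 v
  mem : ∀ y : Matrix B B ℂ, (∀ t ∈ S.A (Fin 2), der (Fin 2) y *ᵥ t = 0) →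
    (∀ t ∈ S.A (Fin 4), der (Fin 4) y *ᵥ t = 0) → y ∈ 𝔤

variable {𝔤 : Submodule ℂ (Matrix B B ℂ)} {J : Matrix B B ℂ} {S : TSys B}

lemma Ctx.loc (C : Ctx 𝔤 J S) : Loc 𝔤 J S :=
  ⟨C.det, C.form, C.hodge, fun y h => C.mem y (h _) (h _)⟩

lemma form_of_der {x J : Matrix B B ℂ} (h : der (Fin 2) x *ᵥ ft J = 0) : x * J + J * xᵀ = 0 := by
  have h1 := der_form x J
  rw [show (fun w : Fin 2 → B => J (w 0) (w 1)) = ft J from rfl, h] at h1
  ext a b
  exact (congrFun h1 ![a, b]).symm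

lemma kill_of_fix {U : Matrix B B ℂ} (hU : U * Uᴴ = 1) {e y : B → ℂ} {ι : Type} [Fintype ι]
    [DecidableEq ι] {v : (ι → B) → ℂ} (hv : tp ι (U * diagonal e * Uᴴ) *ᵥ v = v)
    (h : ∀ I : ι → B, ∏ i, e (I i) = 1 → ∑ i, y (I i) = 0) :
    der ι (U * diagonal y * Uᴴ) *ᵥ v = 0 := by
  rw [kill_iff hU]
  intro I
  rcases (fix_iff hU e _).1 hv I with h1 | h1
  · exact Or.inl h1
  · exact Or.inr (h I h1)

lemma fix_of_kill {U : Matrix B B ℂ} (hU : U * Uᴴ = 1) {e' y : B → ℂ}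
    (hy : ∀ i, e' i = Complex.exp (y i)) {ι : Type} [Fintype ι]
    [DecidableEq ι] {v : (ι → B) → ℂ} (hv : der ι (U * diagonal y * Uᴴ) *ᵥ v = 0) :
    tp ι (U * diagonal e' * Uᴴ) *ᵥ v = v := by
  rw [fix_iff hU]
  intro I
  rcases (kill_iff hU y _).1 hv I with h | h
  · exact Or.inl h
  · refine Or.inr ?_
    simp only [hy]
    rw [← Complex.exp_sum, h, Complex.exp_zero]

/-- Diagonalisable elements of the stabiliser. -/
lemma Ctx.diag (C : Ctx 𝔤 J S) {U : Matrix B B ℂ} (hU : U * Uᴴ = 1) {e y : B → ℂ}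
    (hk : S.Fixes (U * diagonal e * Uᴴ))
    (h2 : ∀ I : Fin 2 → B, ∏ i, e (I i) = 1 → ∑ i, y (I i) = 0)
    (h4 : ∀ I : Fin 4 → B, ∏ i, e (I i) = 1 → ∑ i, y (I i) = 0)
    {e' : B → ℂ} (hy : ∀ i, e' i = Complex.exp (y i)) {ι : Type} [Fintype ι] [DecidableEq ι]
    {v : (ι → B) → ℂ} (hv : Killed 𝔤 v) : tp ι (U * diagonal e' * Uᴴ) *ᵥ v = v := by
  have h5 : U * diagonal y * Uᴴ ∈ 𝔤 := by
    refine C.mem _ (fun t ht => ?_) fun t ht => ?_
    · exact kill_of_fix hU (hk _ t ht) h2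
    · exact kill_of_fix hU (hk _ t ht) h4
  exact fix_of_kill hU hy (hv _ h5)

/-- **Polar decomposition.** -/
lemma Loc.polar (C : Loc 𝔤 J S) {g : Matrix B B ℂ} (hg : S.Fixes g) :
    ∃ k p : Matrix B B ℂ, g = k * p ∧ kᴴ * k = 1 ∧ S.Fixes k ∧
      ∀ (ι : Type) [Fintype ι] [DecidableEq ι] (v : (ι → B) → ℂ), Killed 𝔤 v →
        tp ι p *ᵥ v = v := by
  have hgu : IsUnit g.det := hg.isUnit ⟨J, C.det, C.form⟩
  have hP : (gᴴ * g).PosDef := by
    refine PosDef.conjTranspose_mul_self g ?_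
    exact Matrix.mulVec_injective_of_isUnit ((Matrix.isUnit_iff_isUnit_det g).2 hgu)
  obtain ⟨U, hU, hU', hPU⟩ := spectral hP.1
  set d : B → ℝ := hP.1.eigenvalues with hd
  have hd0 : ∀ i, 0 < d i := hP.eigenvalues_pos
  have hfix : S.Fixes (U * diagonal (fun i => (d i : ℂ)) * Uᴴ) := by
    rw [← hPU]
    exact (fixes_star C.det C.form hg).mul hg
  have hsum : ∀ {ι : Type} [Fintype ι] [DecidableEq ι] (c : ℝ) (I : ι → B),
      ∏ i, (d (I i) : ℂ) = 1 → ∑ i, ((c * Real.log (d (I i)) : ℝ) : ℂ) = 0 := by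
    intro ι _ _ c I h
    rw [← Complex.ofReal_prod, ← Complex.ofReal_one, Complex.ofReal_inj] at h
    rw [← Complex.ofReal_sum, ← Complex.ofReal_zero, Complex.ofReal_inj, ← Finset.mul_sum,
      ← Real.log_prod fun i _ => (hd0 (I i)).ne', h, Real.log_one, mul_zero]
  have hfixQ : ∀ c : ℝ, ∀ (ι : Type) [Fintype ι] [DecidableEq ι] (v : (ι → B) → ℂ), Killed 𝔤 v →
      tp ι (U * diagonal (fun i => Complex.exp ((c * Real.log (d i) : ℝ) : ℂ)) * Uᴴ) *ᵥ v = v := by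
    intro c ι _ _ v hv
    have h5 : U * diagonal (fun i => ((c * Real.log (d i) : ℝ) : ℂ)) * Uᴴ ∈ 𝔤 :=
      C.all _ fun ι _ _ t ht => kill_of_fix hU (hfix ι t ht) fun I h => hsum c I h
    exact fix_of_kill hU (fun i => rfl) (hv _ h5)
  set q : Matrix B B ℂ :=
    U * diagonal (fun i => Complex.exp (((-1 / 2) * Real.log (d i) : ℝ) : ℂ)) * Uᴴ with hq
  set p : Matrix B B ℂ :=
    U * diagonal (fun i => Complex.exp (((1 / 2) * Real.log (d i) : ℝ) : ℂ)) * Uᴴ with hp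
  have hmul : ∀ a b : B → ℂ, (U * diagonal a * Uᴴ) * (U * diagonal b * Uᴴ) =
      U * diagonal (fun i => a i * b i) * Uᴴ := by
    intro a b
    calc (U * diagonal a * Uᴴ) * (U * diagonal b * Uᴴ) =
        U * diagonal a * (Uᴴ * U) * diagonal b * Uᴴ := by simp only [Matrix.mul_assoc]
      _ = U * (diagonal a * diagonal b) * Uᴴ := by
        rw [hU', Matrix.mul_one, Matrix.mul_assoc U]
      _ = _ := by rw [diagonal_mul_diagonal]
  have hqp : q * p = 1 := by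
    rw [hq, hp, hmul]
    have h1 : (fun i => Complex.exp (((-1 / 2) * Real.log (d i) : ℝ) : ℂ) *
        Complex.exp (((1 / 2) * Real.log (d i) : ℝ) : ℂ)) = fun _ => (1 : ℂ) := by
      funext i
      rw [← Complex.exp_add, ← Complex.ofReal_add]
      have : (-1 / 2) * Real.log (d i) + (1 / 2) * Real.log (d i) = 0 := by ring
      rw [this, Complex.ofReal_zero, Complex.exp_zero]
    rw [h1, diagonal_one, Matrix.mul_one, hU]
  have hqH : qᴴ = q := by
    rw [hq, conjTranspose_mul, conjTranspose_mul, conjTranspose_conjTranspose,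
      diagonal_conjTranspose, ← Matrix.mul_assoc]
    congr 3
    funext i
    rw [Pi.star_apply, ← Complex.ofReal_exp, Complex.star_def, Complex.conj_ofReal]
  refine ⟨g * q, p, ?_, ?_, ?_, hfixQ (1 / 2)⟩
  · rw [Matrix.mul_assoc, hqp, Matrix.mul_one]
  · have h1 : (g * q)ᴴ * (g * q) = q * (gᴴ * g) * q := by
      rw [conjTranspose_mul, hqH]
      simp only [Matrix.mul_assoc]
    rw [h1, hPU, hq, hmul, hmul]
    have h2 : (fun i => Complex.exp (((-1 / 2) * Real.log (d i) : ℝ) : ℂ) * (d i : ℂ) *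
        Complex.exp (((-1 / 2) * Real.log (d i) : ℝ) : ℂ)) = fun _ => (1 : ℂ) := by
      funext i
      have h3 : (d i : ℂ) = Complex.exp ((Real.log (d i) : ℝ) : ℂ) := by
        rw [← Complex.ofReal_exp, Real.exp_log (hd0 i)]
      conv_lhs => rw [h3]
      rw [← Complex.exp_add, ← Complex.exp_add, ← Complex.ofReal_add, ← Complex.ofReal_add]
      have : (-1 / 2) * Real.log (d i) + Real.log (d i) + (-1 / 2) * Real.log (d i) = 0 := by ring
      rw [this, Complex.ofReal_zero, Complex.exp_zero]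
    rw [h2, diagonal_one, Matrix.mul_one, hU]
  · refine hg.mul fun ι _ _ v hv => ?_
    exact hfixQ (-1 / 2) ι v (C.hodge ι v hv)

end Pool.Agent.R914.FG
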