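import Pool.Agent.R914.FG.Near

/-!
# Degree four suffices up to a finite group
-/

set_option linter.unusedSectionVars false

namespace Pool.Agent.R914.FG

open Matrix Pool.Agent.R914.UN
open scoped ComplexOrder

variable {B : Type} [Fintype B] [DecidableEq B]
variable {𝔤 : Submodule ℂ (Matrix B B ℂ)} {J : Matrix B B ℂ} {S : TSys B}

/-- The unitary elements of the stabiliser. -/
def KK (S : TSys B) : Set (Matrix B B ℂ) := {k | kᴴ * k = 1 ∧ S.Fixes k}

lemma isClosed_KK (S : TSys B) : IsClosed (KK S) := by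
  have h1 : KK S = {k : Matrix B B ℂ | kᴴ * k = 1} ∩
      ⋂ (ι : Type) (_ : Fintype ι) (_ : DecidableEq ι) (v : (ι → B) → ℂ) (_ : v ∈ S.A ι),
        {k : Matrix B B ℂ | tp ι k *ᵥ v = v} := by
    ext k
    simp only [KK, Set.mem_ofPred_eq, Set.mem_inter_iff, Set.mem_iInter]
    rfl
  rw [h1]
  refine IsClosed.inter ?_ ?_
  · exact isClosed_eq (by fun_prop) continuous_const
  · refine isClosed_iInter fun ι => isClosed_iInter fun _ => isClosed_iInter fun _ =>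
      isClosed_iInter fun v => isClosed_iInter fun _ => ?_
    refine isClosed_eq ?_ continuous_const
    refine continuous_pi fun I => ?_
    simp only [mulVec, dotProduct, tp_apply]
    refine continuous_finsetSum _ fun J _ => ?_
    refine (continuous_finsetProd _ fun i _ => ?_).mul continuous_const
    exact (continuous_apply_apply (I i) (J i))

lemma isCompact_KK (S : TSys B) : IsCompact (KK S) := by
  have h1 : IsCompact {k : Matrix B B ℂ | ∀ i j, k i j ∈ Metric.closedBall (0 : ℂ) 1} := by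
    have h2 : {k : Matrix B B ℂ | ∀ i j, k i j ∈ Metric.closedBall (0 : ℂ) 1} =
        Set.pi Set.univ (fun _ : B => Set.pi Set.univ fun _ : B => Metric.closedBall (0 : ℂ) 1) := by
      ext k
      exact ⟨fun h i _ j _ => h i j, fun h i j => h i trivial j trivial⟩
    rw [h2]
    exact isCompact_univ_pi fun _ => isCompact_univ_pi fun _ => isCompact_closedBall _ _
  refine h1.of_isClosed_subset (isClosed_KK S) fun k hk i j => ?_
  rw [mem_closedBall_zero_iff]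
  exact abs_entry_le hk.1 i j

lemma KK.mul {k l : Matrix B B ℂ} (hk : k ∈ KK S) (hl : l ∈ KK S) : k * l ∈ KK S := by
  refine ⟨?_, hk.2.mul hl.2⟩
  rw [conjTranspose_mul]
  calc lᴴ * kᴴ * (k * l) = lᴴ * (kᴴ * k) * l := by simp only [Matrix.mul_assoc]
    _ = 1 := by rw [hk.1, Matrix.mul_one, hl.1]

lemma KK.star (C : Ctx 𝔤 J S) {k : Matrix B B ℂ} (hk : k ∈ KK S) : kᴴ ∈ KK S :=
  ⟨by rw [conjTranspose_conjTranspose]; exact mul_eq_one_comm.1 hk.1,
    fixes_star C.det C.form hk.2⟩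

/-- The unitary elements of the stabiliser normalise the Lie algebra. -/
lemma Ctx.conj (C : Ctx 𝔤 J S) {k : Matrix B B ℂ} (hk : k ∈ KK S) {x : Matrix B B ℂ}
    (hx : x ∈ 𝔤) : kᴴ * x * k ∈ 𝔤 := by
  have hk' : k * kᴴ = 1 := mul_eq_one_comm.1 hk.1
  have key : ∀ (ι : Type) [Fintype ι] [DecidableEq ι] (t : (ι → B) → ℂ), t ∈ S.A ι →
      der ι (kᴴ * x * k) *ᵥ t = 0 := by
    intro ι _ _ t ht
    have h1 := der_conj (ι := ι) hk' x
    have h2 : tp ι kᴴ *ᵥ t = t := (KK.star C hk).2 ι t ht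
    have h3 : der ι x *ᵥ t = 0 := C.hodge ι t ht x hx
    have h4 := congrArg (fun M => M *ᵥ t) h1
    simp only [← mulVec_mulVec] at h4
    rw [h3, mulVec_zero, h2] at h4
    exact h4.symm
  exact C.mem _ (key _) (key _)

/-- The unitary elements of the stabiliser act on the killed tensors. -/
lemma Ctx.killed (C : Ctx 𝔤 J S) {k : Matrix B B ℂ} (hk : k ∈ KK S) {ι : Type} [Fintype ι]
    [DecidableEq ι] {v : (ι → B) → ℂ} (hv : Killed 𝔤 v) : Killed 𝔤 (tp ι k *ᵥ v) := by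
  intro x hx
  have hk' : k * kᴴ = 1 := mul_eq_one_comm.1 hk.1
  have h1 := der_conj (ι := ι) hk.1 (kᴴ * x * k)
  have h2 : k * (kᴴ * x * k) * kᴴ = x := by
    calc k * (kᴴ * x * k) * kᴴ = (k * kᴴ) * x * (k * kᴴ) := by simp only [Matrix.mul_assoc]
      _ = x := by rw [hk', Matrix.one_mul, Matrix.mul_one]
  rw [h2] at h1
  rw [mulVec_mulVec, ← h1, ← mulVec_mulVec, hv _ (C.conj hk hx), mulVec_zero]

lemma continuous_dist1 (l : Matrix B B ℂ) :
    Continuous fun k : Matrix B B ℂ => dist1 (lᴴ * k) := by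
  unfold dist1
  refine continuous_finsetSum _ fun i _ => continuous_finsetSum _ fun j _ => ?_
  refine (Continuous.sub ?_ continuous_const).norm
  have : Continuous fun k : Matrix B B ℂ => lᴴ * k := by fun_prop
  exact (continuous_apply_apply i j).comp this

/-- **The theorem.** -/
theorem Ctx.main (C : Ctx 𝔤 J S) : ∃ F : Finset (Matrix B B ℂ),
    (∀ f ∈ F, fᴴ * f = 1) ∧
    (∀ f ∈ F, ∀ f' ∈ F, ∃ f'' ∈ F, ∀ (ι : Type) [Fintype ι] [DecidableEq ι] (v : (ι → B) → ℂ),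
      Killed 𝔤 v → tp ι f *ᵥ (tp ι f' *ᵥ v) = tp ι f'' *ᵥ v) ∧
    ∀ (ι : Type) [Fintype ι] [DecidableEq ι] (v : (ι → B) → ℂ), Killed 𝔤 v →
      (∀ f ∈ F, Killed 𝔤 (tp ι f *ᵥ v)) ∧ (v ∈ S.A ι ↔ ∀ f ∈ F, tp ι f *ᵥ v = v) := by
  classical
  obtain ⟨t, ht⟩ := (isCompact_KK S).elim_finite_subcover
    (fun l : KK S => {k : Matrix B B ℂ | dist1 ((l : Matrix B B ℂ)ᴴ * k) < 1})
    (fun l => isOpen_lt (continuous_dist1 _) continuous_const)
    (fun k hk => Set.mem_iUnion.2 ⟨⟨k, hk⟩, by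
      have h1 : dist1 (kᴴ * k) = 0 := by
        rw [hk.1, dist1]
        simp
      rw [Set.mem_ofPred_eq, h1]
      exact one_pos⟩)
  have hF : ∀ k ∈ KK S, ∃ l ∈ t.image (Subtype.val : KK S → Matrix B B ℂ),
      ∀ (ι : Type) [Fintype ι] [DecidableEq ι] (v : (ι → B) → ℂ), Killed 𝔤 v →
        tp ι k *ᵥ v = tp ι l *ᵥ v := by
    intro k hk
    obtain ⟨l, hl, hkl⟩ : ∃ l ∈ t, dist1 ((l : Matrix B B ℂ)ᴴ * k) < 1 := by
      simpa only [Set.mem_iUnion, Set.mem_ofPred_eq, exists_prop] using ht hk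
    refine ⟨l, Finset.mem_image_of_mem _ hl, fun ι _ _ v hv => ?_⟩
    have h1 : (l : Matrix B B ℂ)ᴴ * k ∈ KK S := KK.mul (KK.star C l.2) hk
    have h2 := C.near h1.1 hkl h1.2 hv
    have h3 : (l : Matrix B B ℂ) * (l : Matrix B B ℂ)ᴴ = 1 := mul_eq_one_comm.1 l.2.1
    have h4 : k = (l : Matrix B B ℂ) * ((l : Matrix B B ℂ)ᴴ * k) := by
      rw [← Matrix.mul_assoc, h3, Matrix.one_mul]
    conv_lhs => rw [h4]
    rw [tp_mul, ← mulVec_mulVec, h2]
  have hFK : ∀ l ∈ t.image (Subtype.val : KK S → Matrix B B ℂ), l ∈ KK S := by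
    intro l hl
    obtain ⟨m, -, rfl⟩ := Finset.mem_image.1 hl
    exact m.2
  refine ⟨t.image Subtype.val, fun f hf => (hFK f hf).1, fun f hf f' hf' => ?_,
    fun ι _ _ v hv => ⟨fun f hf => C.killed (hFK f hf) hv, fun h f hf => (hFK f hf).2 ι v h,
      fun h => mem_of_fixed fun g hg => ?_⟩⟩
  · obtain ⟨f'', h1, h2⟩ := hF _ (KK.mul (hFK f hf) (hFK f' hf'))
    refine ⟨f'', h1, fun ι _ _ v hv => ?_⟩
    rw [← h2 ι v hv, tp_mul, mulVec_mulVec]
  · obtain ⟨k, p, rfl, hk, hfk, hp⟩ := C.loc.polar hg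
    obtain ⟨l, hl, h2⟩ := hF k ⟨hk, hfk⟩
    rw [tp_mul, ← mulVec_mulVec, hp ι v hv, h2 ι v hv]
    exact h l hl

end Pool.Agent.R914.FG
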