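import Pool.Agent.R914.FG.Loc

/-!
# Unitary matrices near the identity
-/

set_option linter.unusedSectionVars false

namespace Pool.Agent.R914.FG

open Matrix Pool.Agent.R914.UN
open scoped ComplexOrder

variable {B : Type} [Fintype B] [DecidableEq B]

/-- The distance from the identity. -/
noncomputable def dist1 (k : Matrix B B ℂ) : ℝ := ∑ i, ∑ j, ‖k i j - (1 : Matrix B B ℂ) i j‖

lemma abs_entry_le {U : Matrix B B ℂ} (hU : Uᴴ * U = 1) (i j : B) : ‖U i j‖ ≤ 1 := by
  have h1 := congrFun (congrFun hU j) j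
  rw [Matrix.mul_apply, Matrix.one_apply_eq] at h1
  have h2 : ∑ i, ‖U i j‖ ^ 2 = 1 := by
    have h3 : (∑ i, ((‖U i j‖ ^ 2 : ℝ) : ℂ)) = 1 := by
      rw [← h1]
      refine Finset.sum_congr rfl fun i _ => ?_
      rw [conjTranspose_apply, Complex.star_def, Complex.conj_mul', Complex.ofReal_pow]
    rw [← Complex.ofReal_sum, ← Complex.ofReal_one, Complex.ofReal_inj] at h3
    exact h3
  have h3 : ‖U i j‖ ^ 2 ≤ 1 := by
    rw [← h2]
    exact Finset.single_le_sum (f := fun i => ‖U i j‖ ^ 2) (fun i _ => by positivity)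
      (Finset.mem_univ i)
  nlinarith [norm_nonneg (U i j)]

/-- A unitary matrix near the identity is diagonalised by a unitary matrix, with eigenvalues of
absolute value one and positive real part. -/
lemma near_diag {k : Matrix B B ℂ} (hk : kᴴ * k = 1) (hd : dist1 k < 1) :
    ∃ (U : Matrix B B ℂ) (e : B → ℂ), U * Uᴴ = 1 ∧ k = U * diagonal e * Uᴴ ∧
      (∀ i, ‖e i‖ = 1) ∧ ∀ i, 0 < (e i).re := by
  have hdet : IsUnit (1 + k).det := by
    rw [isUnit_iff_ne_zero]
    intro h0
    obtain ⟨v, hv0, hv⟩ := Matrix.exists_mulVec_eq_zero_iff.2 h0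
    rw [add_mulVec, one_mulVec] at hv
    obtain ⟨i0, hi0⟩ := Function.ne_iff.1 hv0
    obtain ⟨i, -, hi⟩ := Finset.exists_max_image Finset.univ (fun i => ‖v i‖)
      ⟨i0, Finset.mem_univ _⟩
    have hvi : 0 < ‖v i‖ := lt_of_lt_of_le (norm_pos_iff.2 hi0) (hi i0 (Finset.mem_univ _))
    have h1 : ((k - 1) *ᵥ v) i = -2 * v i := by
      rw [sub_mulVec, one_mulVec, Pi.sub_apply]
      have := congrFun hv i
      rw [Pi.add_apply, Pi.zero_apply] at this
      linear_combination this
    have h2 : ‖((k - 1) *ᵥ v) i‖ ≤ dist1 k * ‖v i‖ := by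
      rw [mulVec, dotProduct]
      refine (norm_sum_le _ _).trans ?_
      have h3 : ∑ j, ‖(k - 1) i j * v j‖ ≤ ∑ j, ‖k i j - (1 : Matrix B B ℂ) i j‖ * ‖v i‖ := by
        refine Finset.sum_le_sum fun j _ => ?_
        rw [norm_mul, Matrix.sub_apply]
        exact mul_le_mul_of_nonneg_left (hi j (Finset.mem_univ _)) (norm_nonneg _)
      refine h3.trans ?_
      rw [← Finset.sum_mul]
      refine mul_le_mul_of_nonneg_right ?_ (norm_nonneg _)
      exact Finset.single_le_sum (f := fun i => ∑ j, ‖k i j - (1 : Matrix B B ℂ) i j‖)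
        (fun i _ => Finset.sum_nonneg fun j _ => norm_nonneg _) (Finset.mem_univ i)
    rw [h1, norm_mul] at h2
    have h4 : ‖(-2 : ℂ)‖ = 2 := by simp
    rw [h4] at h2
    nlinarith
  set M := (1 + k)⁻¹ with hM
  have hM1 : (1 + k) * M = 1 := mul_nonsing_inv _ hdet
  have hM2 : M * (1 + k) = 1 := nonsing_inv_mul _ hdet
  set A : Matrix B B ℂ := Complex.I • ((1 - k) * M) with hA
  have hcomm : (1 - k) * M = M * (1 - k) := by
    have h1 : (1 + k) * (1 - k) = (1 - k) * (1 + k) := by
      rw [Matrix.mul_sub, Matrix.sub_mul, Matrix.mul_one, Matrix.one_mul, Matrix.add_mul,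
        Matrix.mul_add, Matrix.one_mul, Matrix.mul_one]
    calc (1 - k) * M = M * (1 + k) * ((1 - k) * M) := by rw [hM2, Matrix.one_mul]
      _ = M * ((1 + k) * (1 - k)) * M := by simp only [Matrix.mul_assoc]
      _ = M * ((1 - k) * (1 + k)) * M := by rw [h1]
      _ = M * (1 - k) * ((1 + k) * M) := by simp only [Matrix.mul_assoc]
      _ = M * (1 - k) := by rw [hM1, Matrix.mul_one]
  have hAk : A * (1 + k) = Complex.I • (1 - k) := by
    rw [hA, Matrix.smul_mul, Matrix.mul_assoc, hM2, Matrix.mul_one]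
  have hAH : A.IsHermitian := by
    have h1 : (1 + kᴴ) * Mᴴ = 1 := by
      have := congrArg conjTranspose hM2
      rwa [conjTranspose_mul, conjTranspose_add, conjTranspose_one] at this
    have h2 : Mᴴ * (1 + kᴴ) = 1 := mul_eq_one_comm.1 h1
    have h3 : (1 + kᴴ) * (1 - k) = -((1 - kᴴ) * (1 + k)) := by
      simp only [Matrix.mul_sub, Matrix.sub_mul, Matrix.mul_one, Matrix.add_mul, Matrix.mul_add,
        Matrix.one_mul, hk]
      abel
    have h4 : (1 - k) * M = -(Mᴴ * (1 - kᴴ)) := by
      calc (1 - k) * M = Mᴴ * (1 + kᴴ) * ((1 - k) * M) := by rw [h2, Matrix.one_mul]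
        _ = Mᴴ * ((1 + kᴴ) * (1 - k)) * M := by simp only [Matrix.mul_assoc]
        _ = -(Mᴴ * (1 - kᴴ) * ((1 + k) * M)) := by
          rw [h3, Matrix.mul_neg, Matrix.neg_mul]
          simp only [Matrix.mul_assoc]
        _ = _ := by rw [hM1, Matrix.mul_one]
    rw [IsHermitian, hA, conjTranspose_smul, conjTranspose_mul, conjTranspose_sub,
      conjTranspose_one, Complex.star_def, Complex.conj_I, h4, smul_neg, neg_smul]
  obtain ⟨U, hU, hU', hAU⟩ := spectral hAH
  set a : B → ℝ := hAH.eigenvalues with ha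
  have hne : ∀ i, (a i : ℂ) + Complex.I ≠ 0 := by
    intro i h
    have := congrArg Complex.im h
    rw [Complex.add_im, Complex.ofReal_im, Complex.I_im, zero_add, Complex.zero_im] at this
    exact one_ne_zero this
  set e : B → ℂ := fun i => (Complex.I - a i) / (a i + Complex.I) with he
  have hkU : k = U * diagonal e * Uᴴ := by
    have h1 : (A + Complex.I • 1) * k = Complex.I • 1 - A := by
      have h7 : (A + Complex.I • 1) * k = A * k + Complex.I • k := by
        rw [Matrix.add_mul]
        congr 1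
        rw [Matrix.smul_mul, Matrix.one_mul]
      have h8 : A + A * k = Complex.I • 1 - Complex.I • k := by
        rw [← smul_sub, ← hAk, Matrix.mul_add, Matrix.mul_one]
      rw [h7, eq_sub_iff_add_eq]
      calc A * k + Complex.I • k + A = (A + A * k) + Complex.I • k := by abel
        _ = _ := by rw [h8]; abel
    have h2 : A + Complex.I • 1 = U * diagonal (fun i => (a i : ℂ) + Complex.I) * Uᴴ := by
      have h3 : diagonal (fun i => (a i : ℂ) + Complex.I) =
          diagonal (fun i => (a i : ℂ)) + Complex.I • (1 : Matrix B B ℂ) := by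
        rw [← diagonal_one, ← diagonal_smul, diagonal_add]
        congr 1
        funext i
        simp
      rw [h3, Matrix.mul_add, Matrix.add_mul, ← hAU, Matrix.mul_smul, Matrix.smul_mul,
        Matrix.mul_one, hU]
    have h4 : Complex.I • 1 - A = U * diagonal (fun i => Complex.I - (a i : ℂ)) * Uᴴ := by
      have h3 : diagonal (fun i => Complex.I - (a i : ℂ)) =
          Complex.I • (1 : Matrix B B ℂ) - diagonal (fun i => (a i : ℂ)) := by
        rw [← diagonal_one, ← diagonal_smul, diagonal_sub]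
        congr 1
        funext i
        simp
      rw [h3, Matrix.mul_sub, Matrix.sub_mul, ← hAU, Matrix.mul_smul, Matrix.smul_mul,
        Matrix.mul_one, hU]
    have h5 : (U * diagonal (fun i => ((a i : ℂ) + Complex.I)⁻¹) * Uᴴ) *
        (A + Complex.I • 1) = 1 := by
      rw [h2]
      calc (U * diagonal (fun i => ((a i : ℂ) + Complex.I)⁻¹) * Uᴴ) *
            (U * diagonal (fun i => (a i : ℂ) + Complex.I) * Uᴴ) =
          U * diagonal (fun i => ((a i : ℂ) + Complex.I)⁻¹) * (Uᴴ * U) *
            diagonal (fun i => (a i : ℂ) + Complex.I) * Uᴴ := by simp only [Matrix.mul_assoc]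
        _ = U * (diagonal (fun i => ((a i : ℂ) + Complex.I)⁻¹) *
            diagonal (fun i => (a i : ℂ) + Complex.I)) * Uᴴ := by
          rw [hU', Matrix.mul_one, Matrix.mul_assoc U]
        _ = 1 := by
          rw [diagonal_mul_diagonal]
          have h6 : (fun i => ((a i : ℂ) + Complex.I)⁻¹ * ((a i : ℂ) + Complex.I)) =
              fun _ => (1 : ℂ) := funext fun i => inv_mul_cancel₀ (hne i)
          rw [h6, diagonal_one, Matrix.mul_one, hU]
    calc k = (U * diagonal (fun i => ((a i : ℂ) + Complex.I)⁻¹) * Uᴴ) *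
          ((A + Complex.I • 1) * k) := by rw [← Matrix.mul_assoc, h5, Matrix.one_mul]
      _ = (U * diagonal (fun i => ((a i : ℂ) + Complex.I)⁻¹) * Uᴴ) *
          (U * diagonal (fun i => Complex.I - (a i : ℂ)) * Uᴴ) := by rw [h1, h4]
      _ = U * diagonal (fun i => ((a i : ℂ) + Complex.I)⁻¹) * (Uᴴ * U) *
            diagonal (fun i => Complex.I - (a i : ℂ)) * Uᴴ := by simp only [Matrix.mul_assoc]
      _ = U * (diagonal (fun i => ((a i : ℂ) + Complex.I)⁻¹) *
            diagonal (fun i => Complex.I - (a i : ℂ))) * Uᴴ := by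
          rw [hU', Matrix.mul_one, Matrix.mul_assoc U]
      _ = U * diagonal e * Uᴴ := by
          rw [diagonal_mul_diagonal]
          congr 3
          funext i
          simp only [he, div_eq_inv_mul]
  refine ⟨U, e, hU, hkU, fun i => ?_, fun i => ?_⟩
  · rw [he]
    simp only
    rw [norm_div, div_eq_one_iff_eq (norm_ne_zero_iff.2 (hne i))]
    have h1 : (starRingEnd ℂ) (Complex.I - a i) = -((a i : ℂ) + Complex.I) := by
      rw [map_sub, Complex.conj_I, Complex.conj_ofReal]
      ring
    rw [← Complex.norm_conj, h1, norm_neg]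
  · have h1 : e i - 1 = ∑ j, ∑ l, star (U j i) * (k j l - (1 : Matrix B B ℂ) j l) * U l i := by
      have h2 : Uᴴ * (k - 1) * U = diagonal e - 1 := by
        rw [Matrix.mul_sub, Matrix.sub_mul, Matrix.mul_one, hU', hkU]
        congr 1
        calc Uᴴ * (U * diagonal e * Uᴴ) * U = (Uᴴ * U) * diagonal e * (Uᴴ * U) := by
              simp only [Matrix.mul_assoc]
          _ = diagonal e := by rw [hU', Matrix.one_mul, Matrix.mul_one]
      have h3 := congrFun (congrFun h2 i) i
      rw [Matrix.sub_apply, diagonal_apply_eq, Matrix.one_apply_eq] at h3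
      rw [← h3, Matrix.mul_apply, Finset.sum_comm]
      refine Finset.sum_congr rfl fun l _ => ?_
      rw [Matrix.mul_apply, Finset.sum_mul]
      refine Finset.sum_congr rfl fun j _ => ?_
      rw [conjTranspose_apply, Matrix.sub_apply]
    have h2 : ‖e i - 1‖ ≤ dist1 k := by
      rw [h1, dist1]
      refine (norm_sum_le _ _).trans (Finset.sum_le_sum fun j _ => ?_)
      refine (norm_sum_le _ _).trans (Finset.sum_le_sum fun l _ => ?_)
      rw [norm_mul, norm_mul, norm_star]
      have h3 := abs_entry_le hU' j i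
      have h4 := abs_entry_le hU' l i
      have h5 := norm_nonneg (k j l - (1 : Matrix B B ℂ) j l)
      calc ‖U j i‖ * ‖k j l - (1 : Matrix B B ℂ) j l‖ * ‖U l i‖ ≤
          1 * ‖k j l - (1 : Matrix B B ℂ) j l‖ * 1 := by gcongr
        _ = _ := by ring
    have h3 : |(e i - 1).re| < 1 := (Complex.abs_re_le_norm _).trans_lt (h2.trans_lt hd)
    rw [Complex.sub_re, Complex.one_re] at h3
    have h4 := (abs_lt.1 h3).1
    linarith

variable {𝔤 : Submodule ℂ (Matrix B B ℂ)} {J : Matrix B B ℂ} {S : TSys B}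

/-- Elements of the stabiliser near the identity fix all killed tensors. -/
lemma Ctx.near (C : Ctx 𝔤 J S) {k : Matrix B B ℂ} (hk : kᴴ * k = 1) (hd : dist1 k < 1)
    (hf : S.Fixes k) {ι : Type} [Fintype ι] [DecidableEq ι] {v : (ι → B) → ℂ}
    (hv : Killed 𝔤 v) : tp ι k *ᵥ v = v := by
  obtain ⟨U, e, hU, hkU, he1, he2⟩ := near_diag hk hd
  have hexp : ∀ i, e i = Complex.exp ((Complex.arg (e i) : ℂ) * Complex.I) := by
    intro i
    have h1 := Complex.norm_mul_exp_arg_mul_I (e i)
    rw [he1 i, Complex.ofReal_one, one_mul] at h1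
    exact h1.symm
  have harg : ∀ i, |Complex.arg (e i)| < Real.pi / 2 := fun i =>
    Complex.abs_arg_lt_pi_div_two_iff.2 (Or.inl (he2 i))
  have key : ∀ {n : ℕ} (_ : n ≤ 4) (_ : 0 < n) (I : Fin n → B), ∏ i, e (I i) = 1 →
      ∑ i, (Complex.arg (e (I i)) : ℂ) * Complex.I = 0 := by
    intro n hn hn0 I h
    have h1 : ∏ i, e (I i) = Complex.exp (∑ i, (Complex.arg (e (I i)) : ℂ) * Complex.I) := by
      rw [Complex.exp_sum]
      exact Finset.prod_congr rfl fun i _ => hexp _
    rw [h1, Complex.exp_eq_one_iff] at h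
    obtain ⟨m, hm⟩ := h
    rw [hm]
    rw [← Finset.sum_mul, ← Complex.ofReal_sum] at hm
    have h2 : (∑ i, Complex.arg (e (I i)) : ℝ) = m * (2 * Real.pi) := by
      have h3 := congrArg Complex.im hm
      simp at h3
      simpa using h3
    have h3 : |∑ i, Complex.arg (e (I i))| < 2 * Real.pi := by
      refine (Finset.abs_sum_le_sum_abs _ _).trans_lt ?_
      have h4 : ∑ i : Fin n, |Complex.arg (e (I i))| < ∑ _i : Fin n, Real.pi / 2 :=
        Finset.sum_lt_sum_of_nonempty ⟨⟨0, hn0⟩, Finset.mem_univ _⟩ fun i _ => harg _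
      rw [Finset.sum_const, Finset.card_univ, Fintype.card_fin, nsmul_eq_mul] at h4
      refine h4.trans_le ?_
      have h5 : (n : ℝ) ≤ 4 := by exact_mod_cast hn
      nlinarith [Real.pi_pos]
    rw [h2, abs_mul, abs_of_pos (by positivity : (0 : ℝ) < 2 * Real.pi)] at h3
    have h4 : |(m : ℝ)| < 1 := by
      by_contra hcon
      push Not at hcon
      nlinarith [Real.pi_pos]
    have h5 : m = 0 := by
      have h6 : |m| < 1 := by exact_mod_cast h4
      exact Int.abs_lt_one_iff.1 h6
    rw [h5]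
    simp
  rw [hkU] at hf ⊢
  exact C.diag hU hf (y := fun i => (Complex.arg (e i) : ℂ) * Complex.I)
    (fun I h => key (by norm_num) (by norm_num) I h) (fun I h => key le_rfl (by norm_num) I h)
    hexp hv

end Pool.Agent.R914.FG
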