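import Pool.Agent.R914.FG.Main

/-!
# Two systems which agree in degrees two and four
-/

set_option linter.unusedSectionVars false

namespace Pool.Agent.R914.FG

open Matrix Pool.Agent.R914.UN
open scoped ComplexOrder

variable {B : Type} [Fintype B] [DecidableEq B]
variable {ι : Type} [Fintype ι] [DecidableEq ι]

lemma der_add (x y : Matrix B B ℂ) : der ι (x + y) = der ι x + der ι y := by
  ext I J
  have h := congrFun (show der ι (x + y) *ᵥ Pi.single J 1 =
    der ι x *ᵥ Pi.single J 1 + der ι y *ᵥ Pi.single J 1 by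
      funext I
      rw [Pi.add_apply, der_apply, der_apply, der_apply, ← Finset.sum_add_distrib]
      refine Finset.sum_congr rfl fun i _ => ?_
      rw [← Finset.sum_add_distrib]
      exact Finset.sum_congr rfl fun b _ => by rw [Matrix.add_apply, add_mul]) I
  rw [← Matrix.add_mulVec] at h
  simpa [mulVec_single_one] using h

lemma der_smul (c : ℂ) (x : Matrix B B ℂ) : der ι (c • x) = c • der ι x := by
  ext I J
  have h := congrFun (show der ι (c • x) *ᵥ Pi.single J 1 =
    c • (der ι x *ᵥ Pi.single J 1) by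
      funext I
      rw [Pi.smul_apply, der_apply, der_apply, Finset.smul_sum]
      refine Finset.sum_congr rfl fun i _ => ?_
      rw [Finset.smul_sum]
      exact Finset.sum_congr rfl fun b _ => by
        rw [Matrix.smul_apply, smul_eq_mul, smul_eq_mul, mul_assoc]) I
  rw [← Matrix.smul_mulVec] at h
  simpa [mulVec_single_one] using h

lemma der_zero : der ι (0 : Matrix B B ℂ) = 0 := by
  have := der_smul (ι := ι) 0 (0 : Matrix B B ℂ)
  rwa [zero_smul, zero_smul] at this

/-- The operators which kill all tensors of the system. -/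
def lie (S : TSys B) : Submodule ℂ (Matrix B B ℂ) where
  carrier := {y | ∀ (ι : Type) [Fintype ι] [DecidableEq ι] (v : (ι → B) → ℂ), v ∈ S.A ι →
    der ι y *ᵥ v = 0}
  add_mem' := fun {x y} hx hy ι _ _ v hv => by
    rw [der_add, add_mulVec, hx ι v hv, hy ι v hv, add_zero]
  zero_mem' := fun ι _ _ v _ => by rw [der_zero, zero_mulVec]
  smul_mem' := fun c x hx ι _ _ v hv => by
    rw [der_smul, smul_mulVec, hx ι v hv, smul_zero]

lemma slot_mul_self (i : ι) (x y : Matrix B B ℂ) :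
    slot ι i x * slot ι i y = slot ι i (x * y) := by
  rw [slot_eq, slot_eq, slot_eq, tpf_mul]
  congr 1
  funext j
  by_cases hj : j = i
  · simp only [if_pos hj]
  · simp only [if_neg hj, Matrix.mul_one]

lemma slot_comm {i j : ι} (hij : i ≠ j) (x y : Matrix B B ℂ) :
    slot ι i x * slot ι j y = slot ι j y * slot ι i x := by
  rw [slot_eq, slot_eq, tpf_mul, tpf_mul]
  congr 1
  funext l
  by_cases hl : l = i
  · have hl' : l ≠ j := fun h => hij (hl ▸ h)
    simp only [if_pos hl, if_neg hl', Matrix.mul_one, Matrix.one_mul]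
  · simp only [if_neg hl, Matrix.mul_one, Matrix.one_mul]

lemma slot_apply' (i : ι) (x : Matrix B B ℂ) (I J : ι → B) :
    slot ι i x I J = x (I i) (J i) * ∏ j ∈ Finset.univ.erase i, (1 : Matrix B B ℂ) (I j) (J j) := by
  rw [slot, Matrix.of_apply, ← Finset.mul_prod_erase _ _ (Finset.mem_univ i)]
  simp only [if_true]
  congr 1
  refine Finset.prod_congr rfl fun j hj => ?_
  simp only [if_neg (Finset.ne_of_mem_erase hj)]

lemma slot_sub (i : ι) (x y : Matrix B B ℂ) : slot ι i (x - y) = slot ι i x - slot ι i y := by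
  ext I J
  rw [Matrix.sub_apply, slot_apply', slot_apply', slot_apply', Matrix.sub_apply, sub_mul]

lemma der_br (x y : Matrix B B ℂ) :
    der ι x * der ι y - der ι y * der ι x = der ι (x * y - y * x) := by
  rw [der, der, der, Finset.sum_mul_sum, Finset.sum_mul_sum, Finset.sum_comm,
    ← Finset.sum_sub_distrib]
  refine Finset.sum_congr rfl fun i _ => ?_
  rw [← Finset.sum_sub_distrib, Finset.sum_eq_single i]
  · rw [slot_mul_self, slot_mul_self, slot_sub]
  · intro j _ hj
    rw [slot_comm hj, sub_self]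
  · intro h
    exact absurd (Finset.mem_univ _) h

variable {S : TSys B}

lemma lie_br : ∀ x ∈ lie S, ∀ y ∈ lie S, x * y - y * x ∈ lie S := by
  intro x hx y hy ι _ _ v hv
  rw [← der_br, sub_mulVec, ← mulVec_mulVec, ← mulVec_mulVec, hx ι v hv, hy ι v hv, mulVec_zero,
    mulVec_zero, sub_self]

lemma star_der_mulVec (x : Matrix B B ℂ) (v : (ι → B) → ℂ) :
    star (der ι x *ᵥ v) = der ι (x.map star) *ᵥ star v := by
  funext I
  rw [Pi.star_apply, der_apply, der_apply, star_sum]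
  refine Finset.sum_congr rfl fun i _ => ?_
  rw [star_sum]
  refine Finset.sum_congr rfl fun b _ => ?_
  rw [star_mul', Matrix.map_apply, Pi.star_apply]

lemma lie_star {J : Matrix B B ℂ} (hJu : IsUnit J.det) (hJ : ft J ∈ S.A (Fin 2)) :
    ∀ x ∈ lie S, xᴴ ∈ lie S := by
  intro y hy ι _ _ v hv
  have hform := form_of_der (hy _ _ hJ)
  have hJt : IsUnit (Jᵀ).det := by rwa [det_transpose]
  have h1 := hy ι _ (conj_mem hJ hv)
  have h2 : (Jᵀ)⁻¹ * Jᵀ = 1 := nonsing_inv_mul _ hJt
  have h2' : Jᵀ * (Jᵀ)⁻¹ = 1 := mul_nonsing_inv _ hJt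
  have h3 := der_conj (ι := ι) h2 (-yᵀ)
  have h4 : Jᵀ * (-yᵀ) * (Jᵀ)⁻¹ = y := by
    have h5 : y * Jᵀ = -(Jᵀ * yᵀ) := by
      have := congrArg transpose hform
      rw [transpose_add, transpose_mul, transpose_mul, transpose_transpose, transpose_zero] at this
      rw [eq_neg_iff_add_eq_zero, add_comm]
      exact this
    rw [Matrix.mul_neg, ← h5, Matrix.mul_assoc, h2', Matrix.mul_one]
  rw [h4] at h3
  rw [mulVec_mulVec, ← h3, ← mulVec_mulVec] at h1
  have h5 : der ι (-yᵀ) *ᵥ star v = 0 := by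
    have h6 := congrArg (fun u => tp ι (Jᵀ)⁻¹ *ᵥ u) h1
    rwa [tp_cancel h2, mulVec_zero] at h6
  have h6 := congrArg star h5
  rw [star_der_mulVec, star_star, star_zero] at h6
  have h7 : ((-yᵀ).map star : Matrix B B ℂ) = (-1 : ℂ) • yᴴ := by
    ext i j
    simp
  rw [h7, der_smul, smul_mulVec, neg_one_smul, neg_eq_zero] at h6
  exact h6

lemma ym_mul (M x : Matrix B B ℂ) (c d : B) : ∑ b, x d b • ym M c b = ym (M * xᵀ) c d := by
  ext i j
  rw [Matrix.sum_apply]
  simp only [ym, Matrix.smul_apply, Matrix.of_apply, smul_eq_mul, mul_ite, mul_zero]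
  by_cases hj : j = c
  · simp only [if_pos hj, Matrix.mul_apply, transpose_apply]
    exact Finset.sum_congr rfl fun b _ => mul_comm _ _
  · simp only [if_neg hj, Finset.sum_const_zero]

lemma ym_left_mul (M x : Matrix B B ℂ) (c d : B) : ym (x * M) c d = x * ym M c d := by
  ext i j
  rw [Matrix.mul_apply]
  simp only [ym, Matrix.of_apply, mul_ite, mul_zero]
  by_cases hj : j = c
  · simp only [if_pos hj, Matrix.mul_apply]
  · simp only [if_neg hj, Finset.sum_const_zero]

lemma tp_four (k : Matrix B B ℂ) : tp (Fin 4) k =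
    slot (Fin 4) 0 k * (slot (Fin 4) 1 k * (slot (Fin 4) 2 k * slot (Fin 4) 3 k)) := by
  rw [slot_eq, slot_eq, slot_eq, slot_eq, tpf_mul, tpf_mul, tpf_mul, tp_eq]
  congr 1
  funext j
  fin_cases j <;> simp

/-- The tensor of an endomorphism is fixed by `k` if the endomorphism commutes with `Ad k`. -/
lemma tp_tt {J k k' : Matrix B B ℂ} (hk : k' * k = 1) (hkJ : k * J * kᵀ = J)
    {T : Matrix B B ℂ →ₗ[ℂ] Matrix B B ℂ} (hT : ∀ Y, T (k' * Y * k) = k' * T Y * k) :
    tp (Fin 4) k *ᵥ tt J T = tt J T := by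
  have hk' : k * k' = 1 := mul_eq_one_comm.1 hk
  have hJk : J * kᵀ = k' * J := by
    calc J * kᵀ = k' * k * (J * kᵀ) := by rw [hk, Matrix.one_mul]
      _ = k' * (k * J * kᵀ) := by simp only [Matrix.mul_assoc]
      _ = k' * J := by rw [hkJ]
  have h3 : slot (Fin 4) 3 k *ᵥ tt J T =
      fun w => (T (ym (J * kᵀ) (w 2) (w 3)) * J) (w 0) (w 1) := by
    funext I
    rw [slot_apply, ← ym_mul, map_sum, Finset.sum_mul, Matrix.sum_apply]
    refine Finset.sum_congr rfl fun b _ => ?_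
    rw [map_smul, Matrix.smul_mul, Matrix.smul_apply, smul_eq_mul]
    rfl
  have h2 : slot (Fin 4) 2 k *ᵥ (fun w : Fin 4 → B =>
      (T (ym (J * kᵀ) (w 2) (w 3)) * J) (w 0) (w 1)) =
      fun w => (T (ym (J * kᵀ) (w 2) (w 3) * k) * J) (w 0) (w 1) := by
    funext I
    rw [slot_apply, ← ym_right, map_sum, Finset.sum_mul, Matrix.sum_apply]
    refine Finset.sum_congr rfl fun b _ => ?_
    rw [map_smul, Matrix.smul_mul, Matrix.smul_apply, smul_eq_mul]
    rfl
  have h1 : slot (Fin 4) 1 k *ᵥ (fun w : Fin 4 → B =>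
      (T (ym (J * kᵀ) (w 2) (w 3) * k) * J) (w 0) (w 1)) =
      fun w => (T (ym (J * kᵀ) (w 2) (w 3) * k) * J * kᵀ) (w 0) (w 1) := by
    funext I
    rw [slot_apply, Matrix.mul_apply]
    refine Finset.sum_congr rfl fun b _ => ?_
    rw [transpose_apply, mul_comm]
    rfl
  have h0 : slot (Fin 4) 0 k *ᵥ (fun w : Fin 4 → B =>
      (T (ym (J * kᵀ) (w 2) (w 3) * k) * J * kᵀ) (w 0) (w 1)) =
      fun w => (k * (T (ym (J * kᵀ) (w 2) (w 3) * k) * J * kᵀ)) (w 0) (w 1) := by
    funext I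
    rw [slot_apply, Matrix.mul_apply]
    rfl
  rw [tp_four, ← mulVec_mulVec, ← mulVec_mulVec, ← mulVec_mulVec, h3, h2, h1, h0]
  funext w
  have h4 : k * (T (ym (J * kᵀ) (w 2) (w 3) * k) * J * kᵀ) = T (ym J (w 2) (w 3)) * J := by
    rw [hJk, ym_left_mul, hT, Matrix.mul_assoc _ J, hJk]
    calc k * (k' * T (ym J (w 2) (w 3)) * k * (k' * J)) =
        (k * k') * T (ym J (w 2) (w 3)) * (k * k') * J := by simp only [Matrix.mul_assoc]
      _ = _ := by rw [hk', Matrix.one_mul, Matrix.mul_one]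
  simp only [tt]
  rw [h4]

lemma lie_loc {J : Matrix B B ℂ} (hJu : IsUnit J.det) (hJ : ft J ∈ S.A (Fin 2)) :
    Loc (lie S) J S :=
  ⟨hJu, hJ, fun ι _ _ v hv x hx => hx ι v hv, fun _ h => h⟩

/-- The tensor of the orthogonal projection onto the Lie algebra belongs to the system. -/
lemma proj_mem {J : Matrix B B ℂ} (hJu : IsUnit J.det) (hJ : ft J ∈ S.A (Fin 2))
    {P : Matrix B B ℂ →ₗ[ℂ] Matrix B B ℂ} (hP1 : ∀ M, P M ∈ lie S)
    (hP2 : ∀ M, ∀ u ∈ lie S, ip u (M - P M) = 0) : tt J P ∈ S.A (Fin 4) := by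
  have hker : Killed (lie S) (tt J P) := fun x hx =>
    (kill_tt hJu (form_of_der (hx _ _ hJ)) P).2
      (proj_comm lie_br (lie_star hJu hJ) hP1 hP2 x hx)
  refine mem_of_fixed fun g hg => ?_
  obtain ⟨k, p, rfl, hk, hfk, hp⟩ := (lie_loc hJu hJ).polar hg
  rw [tp_mul, ← mulVec_mulVec, hp _ _ hker]
  have hk' : k * kᴴ = 1 := mul_eq_one_comm.1 hk
  have hfks := fixes_star hJu hJ hfk
  have hconj : ∀ {l : Matrix B B ℂ}, lᴴ * l = 1 → S.Fixes l → S.Fixes lᴴ → ∀ x ∈ lie S,
      l * x * lᴴ ∈ lie S := by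
    intro l hl hfl hfls x hx ι _ _ v hv
    have h1 := der_conj (ι := ι) hl x
    have h2 := congrArg (fun M => M *ᵥ v) h1
    simp only [← mulVec_mulVec] at h2
    rw [hx ι v hv, mulVec_zero, hfl ι v hv] at h2
    exact h2.symm
  refine tp_tt hk (fix_form (hfk _ _ hJ)) fun Y => ?_
  have h3 : kᴴ * P Y * k ∈ lie S := by
    have := hconj (l := kᴴ) (by rw [conjTranspose_conjTranspose]; exact hk') hfks
      (by rw [conjTranspose_conjTranspose]; exact hfk) _ (hP1 Y)
    rwa [conjTranspose_conjTranspose] at this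
  refine proj_unique hP1 hP2 h3 fun u hu => ?_
  have h4 := hP2 Y _ (hconj hk hfk hfks u hu)
  rw [← h4, ip, ip, conjTranspose_mul, conjTranspose_mul, conjTranspose_conjTranspose]
  have h5 : kᴴ * Y * k - kᴴ * P Y * k = kᴴ * (Y - P Y) * k := by
    rw [Matrix.mul_sub, Matrix.sub_mul]
  rw [h5]
  calc trace (uᴴ * (kᴴ * (Y - P Y) * k)) = trace ((uᴴ * kᴴ * (Y - P Y)) * k) := by
        simp only [Matrix.mul_assoc]
    _ = trace (k * (uᴴ * kᴴ * (Y - P Y))) := trace_mul_comm _ _
    _ = _ := by simp only [Matrix.mul_assoc]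

end Pool.Agent.R914.FG
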