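import Pool.Agent.R914.UN.Mach
import Pool.Agent.R914.FG.Der

/-!
# The tensors of a system are the invariants of its stabiliser
-/

set_option linter.unusedSectionVars false

namespace Pool.Agent.R914.FG

open MvPolynomial Matrix Pool.Agent.R914.UN

variable {B : Type} [Fintype B] [DecidableEq B] {S : TSys B}
variable {ι κ : Type} [Fintype ι] [DecidableEq ι] [Fintype κ] [DecidableEq κ]

/-- **A tensor fixed by the stabiliser of the system belongs to the system.** -/
theorem mem_of_fixed {v : (ι → B) → ℂ} (hv : ∀ g, S.Fixes g → tp ι g *ᵥ v = v) : v ∈ S.A ι := by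
  classical
  by_contra hcon
  set a : (ι → B) → ℂ := v - S.R ι *ᵥ v with ha
  have ha0 : a ≠ 0 := by
    intro h
    apply hcon
    rw [sub_eq_zero.1 h]
    exact (S.isProj ι).mem v
  have hRa : S.R ι *ᵥ a = 0 := by
    rw [ha, mulVec_sub, (S.isProj ι).self ((S.isProj ι).mem v), sub_self]
  have hga : ∀ g, S.Fixes g → tp ι g *ᵥ a = a := by
    intro g hg
    rw [ha, mulVec_sub, hv g hg, hg ι _ ((S.isProj ι).mem v)]
  set r : ℝ := ∑ i, ‖a i‖ ^ 2 with hr
  have hr0 : 0 < r := by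
    obtain ⟨i, hi⟩ := Function.ne_iff.1 ha0
    refine Finset.sum_pos' (fun i _ => by positivity) ⟨i, Finset.mem_univ i, ?_⟩
    have : 0 < ‖a i‖ := norm_pos_iff.2 hi
    positivity
  set c : ℂ := Complex.ofReal (Real.sqrt r)⁻¹ with hc
  set u : (ι → B) → ℂ := c • a with hu
  have hu1 : star u ⬝ᵥ u = 1 := by
    rw [hu, star_smul, smul_dotProduct, dotProduct_smul, star_dot_self, ← hr, smul_eq_mul,
      smul_eq_mul, hc, Complex.star_def, Complex.conj_ofReal, ← Complex.ofReal_mul,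
      ← Complex.ofReal_mul]
    rw [← Complex.ofReal_one]
    congr 1
    have h1 : Real.sqrt r ≠ 0 := (Real.sqrt_pos.2 hr0).ne'
    have h2 : Real.sqrt r * Real.sqrt r = r := Real.mul_self_sqrt hr0.le
    field_simp
    rw [pow_two, h2]
  have hRu : S.R ι *ᵥ u = 0 := by rw [hu, mulVec_smul, hRa, smul_zero]
  have hgu : ∀ g, S.Fixes g → tp ι g *ᵥ u = u := by
    intro g hg
    rw [hu, mulVec_smul, hga g hg]
  have h2 : fp u - 1 ∈ S.ker.radical := by
    rw [← vanishingIdeal_zeroLocus_eq_radical (K := ℂ), mem_vanishingIdeal_iff]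
    intro x hx
    set g : Matrix B B ℂ := Matrix.of fun i j => x (i, j) with hg
    have hev : ∀ q ∈ S.ker, ev g q = 0 := by
      intro q hq
      have h1 := (mem_zeroLocus_iff).1 hx q hq
      rw [ev]
      rw [aeval_eq_eval] at h1
      exact h1
    have h3 : ev g (fp u - 1) = 0 := by
      rw [map_sub, map_one, ev_fp, hgu g (S.fixes_of_zero hev), hu1, sub_self]
    rw [aeval_eq_eval]
    exact h3
  obtain ⟨M, hM⟩ := h2
  have h3 : ∀ k : ℕ, S.mu (fp u ^ k) = ∑ j ∈ Finset.range M,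
      (k.choose j : ℂ) * S.mu ((fp u - 1) ^ j) := by
    intro k
    have h4 : fp u ^ k = ∑ j ∈ Finset.range (k + 1 + M), C (k.choose j : ℂ) * (fp u - 1) ^ j := by
      have h5 : fp u ^ k = ∑ j ∈ Finset.range (k + 1), C (k.choose j : ℂ) * (fp u - 1) ^ j := by
        conv_lhs => rw [show fp u = (fp u - 1) + 1 by ring]
        rw [add_pow]
        refine Finset.sum_congr rfl fun j _ => ?_
        rw [one_pow, mul_one, mul_comm]
        congr 1
      rw [h5]
      refine Finset.sum_subset (Finset.range_mono (by omega)) fun j _ hj => ?_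
      rw [Nat.choose_eq_zero_of_lt (by simpa using hj), Nat.cast_zero, C_0, zero_mul]
    rw [h4, map_sum]
    simp only [S.mu_C_mul]
    symm
    refine Finset.sum_subset (Finset.range_mono (by omega)) fun j _ hj => ?_
    have h5 : (fp u - 1) ^ j ∈ S.ker := by
      have h6 : M ≤ j := by simpa using hj
      obtain ⟨i, rfl⟩ := Nat.exists_eq_add_of_le h6
      rw [pow_add]
      exact Ideal.mul_mem_right _ _ hM
    have h6 := h5 1
    rw [mul_one] at h6
    rw [h6, mul_zero]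
  have h4 : ∀ k : ℕ, ‖S.mu (fp u ^ k)‖ ≤ 1 := by
    intro k
    obtain ⟨κ, _, _, c', h5, h6⟩ := fp_pow hu1 k
    rw [h6, mu_fp]
    exact (S.isProj κ).norm_le h5
  have h5 := moment (M := M) (fun j => S.mu ((fp u - 1) ^ j)) (fun k => by
    rw [← h3]
    exact h4 k) 1
  rw [← h3, ← h3, pow_one, pow_zero, S.mu_one, mu_fp, hRu, dotProduct_zero] at h5
  exact zero_ne_one h5

/-- The product tensors belong to the system. -/
def PT (S : TSys B) (c : (Fin 2 → B) → ℂ) (ι : Type) [Fintype ι] [DecidableEq ι] : Prop :=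
  (fun w : ι ⊕ ι → B => ∏ i, c ![w (Sum.inl i), w (Sum.inr i)]) ∈ S.A (ι ⊕ ι)

lemma PT.equiv {c : (Fin 2 → B) → ℂ} (h : PT S c ι) (e : ι ≃ κ) : PT S c κ := by
  have h1 := S.relabel (Equiv.sumCongr e e) h
  have h2 : (fun w : κ ⊕ κ → B => ∏ i, c ![w (Sum.inl i), w (Sum.inr i)]) =
      fun w => ∏ i, c ![(w ∘ (Equiv.sumCongr e e)) (Sum.inl i),
        (w ∘ (Equiv.sumCongr e e)) (Sum.inr i)] := by
    funext w
    exact (e.prod_comp fun i => c ![w (Sum.inl i), w (Sum.inr i)]).symm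
  rw [PT, h2]
  exact h1

lemma PT.sum {c : (Fin 2 → B) → ℂ} (h : PT S c ι) (h' : PT S c κ) : PT S c (ι ⊕ κ) := by
  have h1 := S.relabel (Equiv.sumSumSumComm ι ι κ κ) (S.mul h h')
  have h2 : (fun w : (ι ⊕ κ) ⊕ (ι ⊕ κ) → B => ∏ i, c ![w (Sum.inl i), w (Sum.inr i)]) =
      fun w => mulT (fun w : ι ⊕ ι → B => ∏ i, c ![w (Sum.inl i), w (Sum.inr i)])
        (fun w : κ ⊕ κ → B => ∏ i, c ![w (Sum.inl i), w (Sum.inr i)])
        (w ∘ (Equiv.sumSumSumComm ι ι κ κ)) := by
    funext w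
    rw [Fintype.prod_sum_type]
    rfl
  rw [PT, h2]
  exact h1

lemma PT.zero {c : (Fin 2 → B) → ℂ} : PT S c (Fin 0) := S.empty _

lemma PT.one {c : (Fin 2 → B) → ℂ} (hc : c ∈ S.A (Fin 2)) : PT S c (Fin 1) := by
  have h1 := S.relabel (finSumFinEquiv (m := 1) (n := 1)).symm hc
  have h2 : (fun w : Fin 1 ⊕ Fin 1 → B => ∏ i, c ![w (Sum.inl i), w (Sum.inr i)]) =
      fun w => c (w ∘ (finSumFinEquiv (m := 1) (n := 1)).symm) := by
    funext w
    rw [Fin.prod_univ_one]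
    congr 1
    funext i
    fin_cases i
    · rfl
    · rfl
  rw [PT, h2]
  exact h1

lemma PT.fin {c : (Fin 2 → B) → ℂ} (hc : c ∈ S.A (Fin 2)) : ∀ n : ℕ, PT S c (Fin n)
  | 0 => PT.zero
  | n + 1 => ((PT.fin hc n).sum (PT.one hc)).equiv finSumFinEquiv

lemma PT.all {c : (Fin 2 → B) → ℂ} (hc : c ∈ S.A (Fin 2)) : PT S c ι :=
  (PT.fin hc (Fintype.card ι)).equiv (Fintype.equivFin ι).symm

/-- The form as a tensor. -/
def ft (J : Matrix B B ℂ) : (Fin 2 → B) → ℂ := fun w => J (w 0) (w 1)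

/-- The system is stable under the conjugation given by the form. -/
lemma conj_mem {J : Matrix B B ℂ} (hJ : ft J ∈ S.A (Fin 2)) {v : (ι → B) → ℂ} (hv : v ∈ S.A ι) :
    tp ι Jᵀ *ᵥ star v ∈ S.A ι := by
  have h1 := S.con hv (PT.all (ι := ι) hJ)
  have h2 : tp ι Jᵀ *ᵥ star v = conT v
      (fun w : ι ⊕ ι → B => ∏ i, ft J ![w (Sum.inl i), w (Sum.inr i)]) := by
    funext w
    rw [mulVec, dotProduct, conT]
    refine Finset.sum_congr rfl fun x _ => ?_
    rw [tp_apply, mul_comm]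
    rfl
  rw [h2]
  exact h1

lemma fix_form {J g : Matrix B B ℂ} (hg : tp (Fin 2) g *ᵥ ft J = ft J) : g * J * gᵀ = J := by
  ext a b
  have h3 := congrFun hg ![a, b]
  rw [mulVec, dotProduct] at h3
  simp only [ft, Matrix.cons_val_zero, Matrix.cons_val_one] at h3
  rw [← h3, ← (finTwoArrowEquiv B).symm.sum_comp, Fintype.sum_prod_type, Matrix.mul_apply]
  simp only [Matrix.mul_apply, transpose_apply, Finset.sum_mul]
  rw [Finset.sum_comm]
  refine Finset.sum_congr rfl fun x _ => Finset.sum_congr rfl fun y _ => ?_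
  rw [tp_apply, Fin.prod_univ_two]
  simp [finTwoArrowEquiv]
  ring

lemma star_tp_mulVec (g : Matrix B B ℂ) (v : (ι → B) → ℂ) :
    star (tp ι g *ᵥ v) = tp ι (g.map star) *ᵥ star v := by
  funext I
  simp only [Pi.star_apply, mulVec, dotProduct, star_sum, tp_apply, star_mul', star_prod,
    Matrix.map_apply]

/-- The stabiliser is stable under the adjoint. -/
lemma fixes_star {J : Matrix B B ℂ} (hJu : IsUnit J.det) (hJ : ft J ∈ S.A (Fin 2))
    {g : Matrix B B ℂ} (hg : S.Fixes g) : S.Fixes gᴴ := by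
  have hS : S.HasForm := ⟨J, hJu, hJ⟩
  have hform := fix_form (hg (Fin 2) _ hJ)
  have hgi := hg.inv hS
  have hformi := fix_form (hgi (Fin 2) _ hJ)
  have hJt : IsUnit (Jᵀ).det := by rwa [det_transpose]
  have hgu := hg.isUnit hS
  intro ι _ _ v hv
  -- `g⁻¹ Jᵀ = Jᵀ gᵀ`
  have h1 : g⁻¹ * Jᵀ = Jᵀ * gᵀ := by
    have h2 : g * Jᵀ * gᵀ = Jᵀ := by
      have := congrArg transpose hform
      rwa [transpose_mul, transpose_mul, transpose_transpose, ← Matrix.mul_assoc] at this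
    calc g⁻¹ * Jᵀ = g⁻¹ * (g * Jᵀ * gᵀ) := by rw [h2]
      _ = (g⁻¹ * g) * (Jᵀ * gᵀ) := by simp only [Matrix.mul_assoc]
      _ = Jᵀ * gᵀ := by rw [nonsing_inv_mul _ hgu, Matrix.one_mul]
  have h3 := hgi ι _ (conj_mem hJ hv)
  rw [mulVec_mulVec, ← tp_mul, h1, tp_mul, ← mulVec_mulVec] at h3
  have h4 : tp ι gᵀ *ᵥ star v = star v := by
    have h5 := congrArg (fun u => tp ι (Jᵀ)⁻¹ *ᵥ u) h3
    simp only [mulVec_mulVec, ← tp_mul] at h5
    rw [← Matrix.mul_assoc, nonsing_inv_mul _ hJt, Matrix.one_mul, tp_one, one_mulVec] at h5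
    exact h5
  have h6 := congrArg star h4
  rw [star_tp_mulVec, star_star] at h6
  exact h6

end Pool.Agent.R914.FG
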