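import Pool.Agent.R914.FG.Pair

/-!
# The variational Hodge conjecture in degree four
-/

set_option linter.unusedSectionVars false

namespace Pool.Agent.R914.FG

open Matrix Pool.Agent.R914.UN
open scoped ComplexOrder

variable {B : Type} [Fintype B] [DecidableEq B]

/-- The hypotheses on a family of systems `Z t`: the tensors of the systems are killed by the Hodge Lie
algebra `𝔥`; the form `J` and all tensors of degree two killed by `𝔥` belong to all the systems; the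
centre of the commutant of `𝔥` is fixed by the involution defined by `J` (no factors of type IV). -/
structure IsFamily {T : Type} (Z : T → TSys B) (𝔥 : Submodule ℂ (Matrix B B ℂ))
    (J : Matrix B B ℂ) : Prop where
  det : IsUnit J.det
  form : ∀ t, ft J ∈ (Z t).A (Fin 2)
  hodge : ∀ t (ι : Type) [Fintype ι] [DecidableEq ι] (v : (ι → B) → ℂ), v ∈ (Z t).A ι → Killed 𝔥 v
  two : ∀ v : (Fin 2 → B) → ℂ, Killed 𝔥 v → ∀ t, v ∈ (Z t).A (Fin 2)
  centre : ∀ z : Matrix B B ℂ, (∀ x ∈ 𝔥, z * x = x * z) →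
    (∀ a : Matrix B B ℂ, (∀ x ∈ 𝔥, a * x = x * a) → z * a = a * z) → z * J = J * zᵀ

/-- **The variational conjecture** for the tensors indexed by `ι`. -/
def Vhc {T : Type} (Z : T → TSys B) (ι : Type) [Fintype ι] [DecidableEq ι] : Prop :=
  ∀ s t (v : (ι → B) → ℂ), v ∈ (Z s).A ι → v ∈ (Z t).A ι

/-- The intersection of systems. -/
def inter {T : Type} (Z : T → TSys B) : TSys B where
  A ι _ _ := ⨅ t, (Z t).A ι
  relabel e v hv := (Submodule.mem_iInf _).2 fun t =>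
    (Z t).relabel e ((Submodule.mem_iInf _).1 hv t)
  empty v := (Submodule.mem_iInf _).2 fun t => (Z t).empty v
  mul hv hu := (Submodule.mem_iInf _).2 fun t =>
    (Z t).mul ((Submodule.mem_iInf _).1 hv t) ((Submodule.mem_iInf _).1 hu t)
  con hv hu := (Submodule.mem_iInf _).2 fun t =>
    (Z t).con ((Submodule.mem_iInf _).1 hv t) ((Submodule.mem_iInf _).1 hu t)

/-- The envelope of a system: the tensors killed by all operators which kill the system. -/
def Env (S : TSys B) (ι : Type) [Fintype ι] [DecidableEq ι] (v : (ι → B) → ℂ) : Prop :=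
  Killed (lie S) v

/-- The matrices in `F` are unitary and act on the envelope of the system as a finite monoid of
injective maps, that is, as a finite group. -/
structure ActsAsGroup (F : Finset (Matrix B B ℂ)) (S : TSys B) : Prop where
  unitary : ∀ f ∈ F, fᴴ * f = 1
  maps : ∀ f ∈ F, ∀ (ι : Type) [Fintype ι] [DecidableEq ι] (v : (ι → B) → ℂ), Env S ι v →
    Env S ι (tp ι f *ᵥ v)
  comp : ∀ f ∈ F, ∀ f' ∈ F, ∃ f'' ∈ F, ∀ (ι : Type) [Fintype ι] [DecidableEq ι]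
    (v : (ι → B) → ℂ), Env S ι v → tp ι f *ᵥ (tp ι f' *ᵥ v) = tp ι f'' *ᵥ v

lemma mem_inter {T : Type} {Z : T → TSys B} {ι : Type} [Fintype ι] [DecidableEq ι]
    {v : (ι → B) → ℂ} : v ∈ (inter Z).A ι ↔ ∀ t, v ∈ (Z t).A ι := Submodule.mem_iInf _

lemma comm_of_two {S : TSys B} {𝔥 : Submodule ℂ (Matrix B B ℂ)} {J : Matrix B B ℂ}
    (hJ : IsUnit J.det) (hform : ft J ∈ S.A (Fin 2)) (hk : Killed 𝔥 (ft J))
    (htwo : ∀ v : (Fin 2 → B) → ℂ, Killed 𝔥 v → v ∈ S.A (Fin 2)) {y : Matrix B B ℂ}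
    (hy : ∀ v ∈ S.A (Fin 2), der (Fin 2) y *ᵥ v = 0) {a : Matrix B B ℂ}
    (ha : ∀ x ∈ 𝔥, a * x = x * a) : y * a = a * y := by
  have h1 : ft (a * J) ∈ S.A (Fin 2) := by
    refine htwo _ fun x hx => ?_
    have h2 := der_form x (a * J)
    have h3 : x * (a * J) + a * J * xᵀ = 0 := by
      have h4 := form_of_der (hk x hx)
      calc x * (a * J) + a * J * xᵀ = a * (x * J + J * xᵀ) := by
            rw [← Matrix.mul_assoc, ← ha x hx, Matrix.mul_add, Matrix.mul_assoc, Matrix.mul_assoc]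
        _ = 0 := by rw [h4, Matrix.mul_zero]
    rw [h3] at h2
    exact h2
  have h2 := form_of_der (hy _ h1)
  have h3 := form_of_der (hy _ hform)
  have h4 : (y * a - a * y) * J = 0 := by
    calc (y * a - a * y) * J = (y * (a * J) + a * J * yᵀ) - a * (y * J + J * yᵀ) := by
          rw [Matrix.sub_mul, Matrix.mul_add]
          simp only [Matrix.mul_assoc]
          abel
      _ = 0 := by rw [h2, h3, Matrix.mul_zero, sub_self]
  have h5 : y * a - a * y = 0 := by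
    calc y * a - a * y = (y * a - a * y) * J * J⁻¹ := by
          rw [Matrix.mul_assoc, mul_nonsing_inv _ hJ, Matrix.mul_one]
      _ = 0 := by rw [h4, Matrix.zero_mul]
  exact sub_eq_zero.1 h5

lemma ctx {T : Type} {Z : T → TSys B} {𝔥 : Submodule ℂ (Matrix B B ℂ)} {J : Matrix B B ℂ}
    (hZ : IsFamily Z 𝔥 J) (h4 : Vhc Z (Fin 4)) (o : T) : Ctx (lie (Z o)) J (inter Z) := by
  have hle : ∀ {ι : Type} [Fintype ι] [DecidableEq ι] {v : (ι → B) → ℂ}, v ∈ (inter Z).A ι →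
      v ∈ (Z o).A ι := fun hv => mem_inter.1 hv o
  have hform : ft J ∈ (inter Z).A (Fin 2) := mem_inter.2 hZ.form
  have hkJ : Killed 𝔥 (ft J) := hZ.hodge o _ _ (hZ.form o)
  have htwo : ∀ v : (Fin 2 → B) → ℂ, Killed 𝔥 v → v ∈ (inter Z).A (Fin 2) :=
    fun v hv => mem_inter.2 (hZ.two v hv)
  have h𝔥 : 𝔥 ≤ lie (Z o) := fun x hx ι _ _ v hv => hZ.hodge o ι v hv x hx
  have hcm : ∀ a : Matrix B B ℂ, (∀ x ∈ 𝔥, a * x = x * a) → ∀ x ∈ lie (Z o), a * x = x * a :=
    fun a ha x hx => (comm_of_two hZ.det hform hkJ htwo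
      (fun v hv => hx _ v (hle hv)) ha).symm
  refine ⟨hZ.det, hform, fun ι _ _ v hv x hx => hx ι v (hle hv), fun y hy2 hy4 => ?_⟩
  obtain ⟨P, hP1, hP2⟩ := exists_proj (lie (Z o))
  refine mem_of_proj lie_br (lie_star hZ.det (hZ.form o)) hZ.det
    (fun x hx => form_of_der (hx _ _ (hZ.form o))) (fun z hz1 hz2 => ?_) hP1 hP2
    (form_of_der (hy2 _ hform)) (fun a ha => ?_) ?_
  · exact hZ.centre z (fun x hx => hz1 x (h𝔥 hx)) fun a ha => hz2 a (hcm a ha)
  · exact comm_of_two hZ.det hform hkJ htwo hy2 fun x hx => ha x (h𝔥 hx)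
  · refine (kill_tt hZ.det (form_of_der (hy2 _ hform)) P).1 (hy4 _ (mem_inter.2 fun t => ?_))
    exact h4 o t _ (proj_mem hZ.det (hZ.form o) hP1 hP2)

lemma lie_eq {T : Type} {Z : T → TSys B} {𝔥 : Submodule ℂ (Matrix B B ℂ)} {J : Matrix B B ℂ}
    (hZ : IsFamily Z 𝔥 J) (h4 : Vhc Z (Fin 4)) (o : T) : lie (inter Z) = lie (Z o) := by
  refine le_antisymm (fun y hy => (ctx hZ h4 o).mem y (hy _) (hy _)) fun y hy ι _ _ v hv => ?_
  exact hy ι v (mem_inter.1 hv o)

/-- **The variational conjecture in degree four implies the variational conjecture up to a finite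
group.** -/
theorem vhc_main {T : Type} [Nonempty T] {Z : T → TSys B} {𝔥 : Submodule ℂ (Matrix B B ℂ)}
    {J : Matrix B B ℂ} (hZ : IsFamily Z 𝔥 J) (h4 : Vhc Z (Fin 4)) :
    ∃ F : Finset (Matrix B B ℂ), ActsAsGroup F (inter Z) ∧
      ∀ (ι : Type) [Fintype ι] [DecidableEq ι] (v : (ι → B) → ℂ),
        ((∃ t, v ∈ (Z t).A ι) → Env (inter Z) ι v) ∧
        (Env (inter Z) ι v → ((∀ t, v ∈ (Z t).A ι) ↔ ∀ f ∈ F, tp ι f *ᵥ v = v)) := by
  obtain ⟨o⟩ := ‹Nonempty T›
  have C := ctx hZ h4 o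
  rw [← lie_eq hZ h4 o] at C
  obtain ⟨F, h1, h2, h3⟩ := C.main
  refine ⟨F, ⟨h1, fun f hf ι _ _ v hv => (h3 ι v hv).1 f hf, h2⟩, fun ι _ _ v => ⟨?_, fun hv => ?_⟩⟩
  · rintro ⟨t, ht⟩ y hy
    rw [lie_eq hZ h4 t] at hy
    exact hy ι v ht
  · rw [← (h3 ι v hv).2, mem_inter]

end Pool.Agent.R914.FG
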